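import Mathlib

/-! Definitions for the project AU (MP_68c2bd): properly discontinuous affine groups with an
abelian normal subgroup of corank at most two. -/

set_option autoImplicit false

namespace Pool.Agent.H71.AU

open NormedSpace

section Exp

variable {𝔸 : Type*} [NormedRing 𝔸] [NormedAlgebra ℝ 𝔸] [CompleteSpace 𝔸]

theorem exp_add_comm' {x y : 𝔸} (h : Commute x y) : exp (x + y) = exp x * exp y := by
  letI : NormedAlgebra ℚ 𝔸 := NormedAlgebra.restrictScalars ℚ ℝ 𝔸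
  exact NormedSpace.exp_add_of_commute h

theorem exp_mul_exp_neg (x : 𝔸) : exp x * exp (-x) = 1 := by
  rw [← exp_add_comm' (Commute.neg_right (Commute.refl x)), add_neg_cancel, exp_zero]

theorem exp_neg_mul_exp (x : 𝔸) : exp (-x) * exp x = 1 := by
  rw [← exp_add_comm' (Commute.neg_left (Commute.refl x)), neg_add_cancel, exp_zero]

/-- The exponential as a unit. -/
noncomputable def ue (X : 𝔸) : 𝔸ˣ := ⟨exp X, exp (-X), exp_mul_exp_neg X, exp_neg_mul_exp X⟩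

@[simp] theorem ue_val (X : 𝔸) : (ue X : 𝔸) = exp X := rfl

@[simp] theorem ue_inv_val (X : 𝔸) : ((ue X)⁻¹ : 𝔸ˣ) = (exp (-X) : 𝔸) := rfl

theorem ue_add {x y : 𝔸} (h : Commute x y) : ue (x + y) = ue x * ue y :=
  Units.ext (exp_add_comm' h)

theorem ue_neg (x : 𝔸) : ue (-x) = (ue x)⁻¹ := Units.ext rfl

theorem ue_zero : ue (0 : 𝔸) = 1 := Units.ext exp_zero

theorem exp_conj' (g : 𝔸ˣ) (x : 𝔸) :
    exp ((g : 𝔸) * x * ((g⁻¹ : 𝔸ˣ) : 𝔸)) = (g : 𝔸) * exp x * ((g⁻¹ : 𝔸ˣ) : 𝔸) := by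
  letI : NormedAlgebra ℚ 𝔸 := NormedAlgebra.restrictScalars ℚ ℝ 𝔸
  exact NormedSpace.exp_units_conj g x

theorem ue_conj (g : 𝔸ˣ) (x : 𝔸) :
    ue ((g : 𝔸) * x * ((g⁻¹ : 𝔸ˣ) : 𝔸)) = g * ue x * g⁻¹ :=
  Units.ext (exp_conj' g x)

theorem commute_exp {x y : 𝔸} (h : Commute x y) : Commute (exp x) y :=
  Commute.exp_left h

theorem continuous_exp' : Continuous (exp : 𝔸 → 𝔸) := by
  letI : NormedAlgebra ℚ 𝔸 := NormedAlgebra.restrictScalars ℚ ℝ 𝔸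
  exact NormedSpace.exp_continuous

end Exp

/-- The derived series of a subgroup, inside the ambient group. -/
def ds {G : Type*} [Group G] (H : Subgroup G) : ℕ → Subgroup G
  | 0 => H
  | n + 1 => ⁅ds H n, ds H n⁆

section Orb

variable {E : Type*} [NormedAddCommGroup E] [NormedSpace ℝ E]

/-- The span of all `X y` with `X ∈ h` and `y ∈ P`. -/
def hs (h : Submodule ℝ (E →L[ℝ] E)) (P : Submodule ℝ E) : Submodule ℝ E :=
  Submodule.span ℝ {z | ∃ X ∈ h, ∃ y ∈ P, X y = z}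

/-- A commuting space of nilpotent maps, acting on the affine space `x₀ + W` freely in the
infinitesimal sense. -/
structure Lin (W : Submodule ℝ E) (x₀ : E) (h : Submodule ℝ (E →L[ℝ] E)) : Prop where
  comm : ∀ X ∈ h, ∀ Y ∈ h, Commute X Y
  nil : ∀ X ∈ h, IsNilpotent X
  hx : ∀ X ∈ h, X x₀ ∈ W
  hW : ∀ X ∈ h, ∀ w ∈ W, X w ∈ W
  inj : ∀ X ∈ h, ∀ w ∈ W, X (x₀ + w) = 0 → X = 0

/-- The data for the orbit lemmas. -/
structure Dat [CompleteSpace E] (W : Submodule ℝ E) (x₀ : E) (h : Submodule ℝ (E →L[ℝ] E))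
    (G : Subgroup (E →L[ℝ] E)ˣ) : Prop extends Lin W x₀ h where
  conj : ∀ g ∈ G, ∀ X ∈ h, (g : E →L[ℝ] E) * X * ((g⁻¹ : (E →L[ℝ] E)ˣ) : E →L[ℝ] E) ∈ h
  GW : ∀ g ∈ G, ∀ w ∈ W, (g : E →L[ℝ] E) w ∈ W
  Gx : ∀ g ∈ G, (g : E →L[ℝ] E) x₀ - x₀ ∈ W
  ex : ∀ X ∈ h, ue X ∈ G

end Orb

end Pool.Agent.H71.AU
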