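import Mathlib
import Pool.Agent.H71.AU.Defs

/-! AU-8: lattices are cobounded in their span, and a rank bound. -/

set_option autoImplicit false

namespace Pool.Agent.H71.AU

open NormedSpace Module

theorem cobounded {F : Type*} [NormedAddCommGroup F] [NormedSpace ℝ F] [FiniteDimensional ℝ F]
    (L : AddSubgroup F) :
    ∃ R : ℝ, ∀ X ∈ Submodule.span ℝ (L : Set F), ∃ l ∈ L, ‖X - l‖ ≤ R := by
  classical
  obtain ⟨s, hs, hspan⟩ := (Submodule.fg_span_iff_fg_span_finset_subset (R := ℝ) (L : Set F)).mp
    (IsNoetherian.noetherian _)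
  refine ⟨∑ a ∈ s, ‖a‖, ?_⟩
  intro X hX
  rw [hspan, Submodule.mem_span_finset] at hX
  obtain ⟨c, -, hc⟩ := hX
  refine ⟨∑ a ∈ s, ⌊c a⌋ • a, ?_, ?_⟩
  · exact AddSubgroup.sum_mem _ fun a ha => AddSubgroup.zsmul_mem _ (hs ha) _
  · rw [← hc, ← Finset.sum_sub_distrib]
    refine (norm_sum_le _ _).trans (Finset.sum_le_sum ?_)
    intro a _
    have h1 : c a • a - ⌊c a⌋ • a = (Int.fract (c a)) • a := by
      rw [← Int.self_sub_floor, sub_smul, Int.cast_smul_eq_zsmul]
    rw [h1, norm_smul, Real.norm_eq_abs, abs_of_nonneg (Int.fract_nonneg _)]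
    have h2 := (Int.fract_lt_one (c a)).le
    have h3 := norm_nonneg a
    nlinarith

theorem rank_le {F : Type*} [NormedAddCommGroup F] [NormedSpace ℝ F] [FiniteDimensional ℝ F]
    (L : AddSubgroup F) (hfin : ∀ R : ℝ, {l : F | l ∈ L ∧ ‖l‖ ≤ R}.Finite)
    (k : ℕ) (f : (Fin k → ℤ) →+ F) (hf : Function.Injective f) (hfL : ∀ z, f z ∈ L) :
    k ≤ finrank ℝ (Submodule.span ℝ (L : Set F)) := by
  classical
  set v : Fin k → F := fun i => f (Pi.single i 1) with hv
  have hvL : ∀ i, v i ∈ L := fun i => hfL _
  -- linear independence over the integers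
  have hli : LinearIndependent ℤ v := by
    rw [Fintype.linearIndependent_iff]
    intro g hg i
    have h1 : f g = ∑ i, g i • v i := by
      have h2 : g = ∑ i, g i • (Pi.single i (1 : ℤ) : Fin k → ℤ) := by
        funext j
        simp [Finset.sum_apply, Pi.single_apply]
      conv_lhs => rw [h2]
      rw [map_sum]
      exact Finset.sum_congr rfl fun i _ => map_zsmul f _ _
    rw [hg] at h1
    have h3 : g = 0 := hf (h1.trans (map_zero f).symm)
    rw [h3]
    rfl
  have hspanL : ∀ x ∈ Submodule.span ℤ (Set.range v), x ∈ L := by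
    intro x hx
    have h1 : Submodule.span ℤ (Set.range v) ≤ AddSubgroup.toIntSubmodule L := by
      rw [Submodule.span_le]
      rintro _ ⟨i, rfl⟩
      exact hvL i
    exact h1 hx
  have hdisc : DiscreteTopology (Submodule.span ℤ (Set.range v)) := by
    apply discreteTopology_of_isOpen_singleton_zero
    set U : Set (Submodule.span ℤ (Set.range v)) := {x | ‖(x : F)‖ < 1} with hU
    have hUo : IsOpen U := isOpen_lt (by fun_prop) continuous_const
    have hUf : U.Finite := by
      have h1 : (Subtype.val '' U : Set F).Finite := by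
        apply (hfin 1).subset
        rintro _ ⟨x, hx, rfl⟩
        exact ⟨hspanL _ x.2, le_of_lt hx⟩
      exact h1.of_finite_image Subtype.val_injective.injOn
    have h2 : ({0} : Set (Submodule.span ℤ (Set.range v))) = U \ (U \ {0}) := by
      ext x
      simp only [Set.mem_singleton_iff, Set.mem_sdiff, not_and, not_not]
      constructor
      · rintro rfl
        exact ⟨by rw [hU]; simp, fun _ => rfl⟩
      · rintro ⟨h1, h2⟩
        exact h2 h1
    rw [h2]
    exact hUo.sdiff (hUf.subset Set.diff_subset).isClosed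
  have h1 := Real.finrank_eq_int_finrank_of_discrete hdisc
  have h2 : Set.finrank ℤ (Set.range v) = k := by
    unfold Set.finrank
    rw [finrank_span_eq_card hli, Fintype.card_fin]
  rw [h2] at h1
  rw [← h1]
  unfold Set.finrank
  apply Submodule.finrank_mono
  apply Submodule.span_mono
  rintro _ ⟨i, rfl⟩
  exact hvL i

end Pool.Agent.H71.AU
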