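import Mathlib
import Pool.Agent.H71.AU.Defs

/-! Project AU (MP_68c2bd): exponential and logarithm of unipotent elements in a real Banach
algebra. -/

set_option autoImplicit false

namespace Pool.Agent.H71.AU

open NormedSpace

section Exp

variable {𝔸 : Type*} [NormedRing 𝔸] [NormedAlgebra ℝ 𝔸] [CompleteSpace 𝔸]

theorem exp_eq_sum_of_pow {x : 𝔸} {m : ℕ} (h : x ^ m = 0) :
    exp x = ∑ i ∈ Finset.range m, ((i.factorial : ℝ)⁻¹) • x ^ i := by
  rw [NormedSpace.exp_eq_tsum ℝ]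
  simp only
  rw [tsum_eq_sum]
  intro i hi
  rw [Finset.mem_range, not_lt] at hi
  rw [pow_eq_zero_of_le hi h, smul_zero]

theorem exp_quad {x : 𝔸} (hx : IsNilpotent x) :
    ∃ s : 𝔸, (∀ z, Commute x z → Commute s z) ∧ exp x = 1 + x + x ^ 2 * s := by
  obtain ⟨m, hm⟩ := hx
  refine ⟨∑ i ∈ Finset.range m, (((i + 2).factorial : ℝ)⁻¹) • x ^ i, ?_, ?_⟩
  · intro z hz
    exact Commute.sum_left _ _ _ (fun i _ => (hz.pow_left i).smul_left _)
  · rw [exp_eq_sum_of_pow (m := m + 2) (by rw [pow_add, hm, zero_mul]),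
      Finset.sum_range_succ', Finset.sum_range_succ']
    simp only [zero_add, Nat.factorial_one, Nat.cast_one, inv_one, pow_one, one_smul,
      Nat.factorial_zero, pow_zero, Finset.mul_sum, mul_smul_comm]
    have h2 : ∑ i ∈ Finset.range m, (((i + 1 + 1).factorial : ℝ)⁻¹) • x ^ (i + 1 + 1) =
        ∑ i ∈ Finset.range m, (((i + 2).factorial : ℝ)⁻¹) • (x ^ 2 * x ^ i) := by
      refine Finset.sum_congr rfl fun i _ => ?_
      rw [← pow_add, add_comm 2 i]
    rw [h2]
    abel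

theorem exists_log {n : 𝔸} (hn : IsNilpotent n) :
    ∃ X Y : 𝔸, X = n * Y ∧ (∀ z, Commute n z → Commute Y z) ∧ exp X = 1 + n := by
  obtain ⟨m, hm⟩ := hn
  have key : ∀ m : ℕ, ∀ n : 𝔸, n ^ (m + 1) = 0 →
      ∃ X Y : 𝔸, X = n * Y ∧ (∀ z, Commute n z → Commute Y z) ∧ exp X = 1 + n := by
    intro m
    induction m with
    | zero =>
      intro n hn
      have h0 : n = 0 := by simpa using hn
      refine ⟨0, 0, by simp, fun z _ => Commute.zero_left z, ?_⟩
      rw [h0, exp_zero, add_zero]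
    | succ m ih =>
      intro n hn
      obtain ⟨s, hs, he⟩ := exp_quad (x := -n) ⟨m + 1 + 1, by rw [neg_pow, hn, mul_zero]⟩
      have hs' : ∀ z, Commute n z → Commute s z := fun z hz => hs z hz.neg_left
      set r : 𝔸 := s * (1 + n) - 1 with hr
      have hrc : ∀ z, Commute n z → Commute r z := by
        intro z hz
        exact (((hs' z hz).mul_left ((Commute.one_left z).add_left hz)).sub_left
          (Commute.one_left z))
      have h1 : exp (-n) * (1 + n) = 1 + n ^ 2 * r := by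
        rw [he, hr]
        noncomm_ring
      have hnr : Commute (n ^ 2) r := ((hrc n (Commute.refl n)).symm).pow_left 2
      have h2 : (n ^ 2 * r) ^ (m + 1) = 0 := by
        rw [hnr.mul_pow, ← pow_mul, pow_eq_zero_of_le (by omega) hn, zero_mul]
      obtain ⟨X', Y', hX', hY', hE'⟩ := ih (n ^ 2 * r) h2
      have hY'' : ∀ z, Commute n z → Commute Y' z := by
        intro z hz
        exact hY' z ((hz.pow_left 2).mul_left (hrc z hz))
      refine ⟨n + X', 1 + n * r * Y', ?_, ?_, ?_⟩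
      · rw [hX']
        noncomm_ring
      · intro z hz
        exact (Commute.one_left z).add_left ((hz.mul_left (hrc z hz)).mul_left (hY'' z hz))
      · have hc : Commute n X' := by
          rw [hX']
          exact (((Commute.refl n).pow_right 2).mul_right (hrc n (Commute.refl n)).symm).mul_right
            (hY'' n (Commute.refl n)).symm
        rw [exp_add_comm' hc, hE', ← h1, ← mul_assoc, exp_mul_exp_neg, one_mul]
  exact key m n (by rw [pow_succ, hm, zero_mul])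

theorem eq_zero_of_exp_eq_one {Z : 𝔸} (hZ : IsNilpotent Z) (h : exp Z = 1) : Z = 0 := by
  obtain ⟨s, hs, he⟩ := exp_quad hZ
  have h1 : Z * (1 + Z * s) = 0 := by
    have : 1 + Z + Z ^ 2 * s = 1 + Z * (1 + Z * s) := by noncomm_ring
    rw [this, h] at he
    have h2 := he.symm
    rwa [add_eq_left] at h2
  have h2 : IsNilpotent (Z * s) := ((hs Z (Commute.refl Z)).symm).isNilpotent_mul_right hZ
  have h3 : IsUnit (1 + Z * s) := h2.isUnit_one_add
  exact (h3.mul_left_eq_zero).1 h1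

/-- The logarithm of a unipotent element. -/
noncomputable def lg (a : 𝔸) : 𝔸 :=
  open Classical in
  if h : IsNilpotent (a - 1) then (exists_log h).choose else 0

theorem lg_spec {a : 𝔸} (ha : IsNilpotent (a - 1)) :
    ∃ Y, lg a = (a - 1) * Y ∧ ∀ z, Commute a z → Commute Y z := by
  obtain ⟨Y, h1, h2, -⟩ := (exists_log ha).choose_spec
  refine ⟨Y, ?_, fun z hz => h2 z (hz.sub_left (Commute.one_left z))⟩
  rw [lg, dif_pos ha]
  exact h1

theorem exp_lg {a : 𝔸} (ha : IsNilpotent (a - 1)) : exp (lg a) = a := by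
  obtain ⟨Y, -, -, h3⟩ := (exists_log ha).choose_spec
  rw [lg, dif_pos ha, h3]
  abel

theorem lg_nil {a : 𝔸} (ha : IsNilpotent (a - 1)) : IsNilpotent (lg a) := by
  obtain ⟨Y, h1, h2⟩ := lg_spec ha
  rw [h1]
  exact (((h2 a (Commute.refl a)).symm).sub_left (Commute.one_left Y)).isNilpotent_mul_right ha

theorem lg_commute {a z : 𝔸} (ha : IsNilpotent (a - 1)) (h : Commute a z) :
    Commute (lg a) z := by
  obtain ⟨Y, h1, h2⟩ := lg_spec ha
  rw [h1]
  exact (h.sub_left (Commute.one_left z)).mul_left (h2 z h)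

theorem lg_eq {a X : 𝔸} (ha : IsNilpotent (a - 1)) (hX : IsNilpotent X) (h : exp X = a) :
    lg a = X := by
  have hc : Commute a X := by
    rw [← h]
    exact commute_exp (Commute.refl X)
  have hc2 : Commute (lg a) X := lg_commute ha hc
  have h1 : exp (lg a - X) = 1 := by
    rw [sub_eq_add_neg, exp_add_comm' hc2.neg_right, exp_lg ha, ← h, exp_mul_exp_neg]
  have h2 : IsNilpotent (lg a - X) := hc2.isNilpotent_sub (lg_nil ha) hX
  exact sub_eq_zero.1 (eq_zero_of_exp_eq_one h2 h1)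

theorem lg_mul {a b : 𝔸} (ha : IsNilpotent (a - 1)) (hb : IsNilpotent (b - 1))
    (hab : Commute a b) : IsNilpotent (a * b - 1) ∧ lg (a * b) = lg a + lg b := by
  have hc1 : Commute (a - 1) b := hab.sub_left (Commute.one_left b)
  have h1 : IsNilpotent ((a - 1) * b) := hc1.isNilpotent_mul_right ha
  have hc2 : Commute ((a - 1) * b) (b - 1) :=
    (hc1.sub_right (Commute.one_right _)).mul_left
      ((Commute.refl b).sub_right (Commute.one_right b))
  have h2 : a * b - 1 = (a - 1) * b + (b - 1) := by noncomm_ring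
  have h3 : IsNilpotent (a * b - 1) := by
    rw [h2]
    exact hc2.isNilpotent_add h1 hb
  have hl : Commute (lg a) (lg b) := (lg_commute hb (lg_commute ha hab).symm).symm
  refine ⟨h3, lg_eq h3 (hl.isNilpotent_add (lg_nil ha) (lg_nil hb)) ?_⟩
  rw [exp_add_comm' hl, exp_lg ha, exp_lg hb]

theorem lg_conj (g : 𝔸ˣ) {a : 𝔸} (ha : IsNilpotent (a - 1)) :
    IsNilpotent ((g : 𝔸) * a * ((g⁻¹ : 𝔸ˣ) : 𝔸) - 1) ∧
    lg ((g : 𝔸) * a * ((g⁻¹ : 𝔸ˣ) : 𝔸)) = (g : 𝔸) * lg a * ((g⁻¹ : 𝔸ˣ) : 𝔸) := by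
  have hconj : ∀ x : 𝔸, IsNilpotent x → IsNilpotent ((g : 𝔸) * x * ((g⁻¹ : 𝔸ˣ) : 𝔸)) := by
    rintro x ⟨m, hm⟩
    exact ⟨m, by rw [Units.conj_pow, hm, mul_zero, zero_mul]⟩
  have h1 : (g : 𝔸) * a * ((g⁻¹ : 𝔸ˣ) : 𝔸) - 1 = (g : 𝔸) * (a - 1) * ((g⁻¹ : 𝔸ˣ) : 𝔸) := by
    rw [mul_sub, sub_mul, mul_one, Units.mul_inv]
  have h2 : IsNilpotent ((g : 𝔸) * a * ((g⁻¹ : 𝔸ˣ) : 𝔸) - 1) := by
    rw [h1]
    exact hconj _ ha
  refine ⟨h2, lg_eq h2 (hconj _ (lg_nil ha)) ?_⟩
  rw [exp_conj', exp_lg ha]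

end Exp

end Pool.Agent.H71.AU
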