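import Mathlib
import Pool.Agent.H71.AU.Defs

/-! Orbit lemmas, part A: spans, the exponential of a nilpotent map on a vector, transitivity. -/

set_option autoImplicit false

namespace Pool.Agent.H71.AU

open NormedSpace Module

section Basic

variable {E : Type*} [NormedAddCommGroup E] [NormedSpace ℝ E]

theorem hs_mem {h : Submodule ℝ (E →L[ℝ] E)} {P : Submodule ℝ E} {X : E →L[ℝ] E} {y : E}
    (hX : X ∈ h) (hy : y ∈ P) : X y ∈ hs h P :=
  Submodule.subset_span ⟨X, hX, y, hy, rfl⟩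

theorem hs_le {h : Submodule ℝ (E →L[ℝ] E)} {P Q : Submodule ℝ E}
    (H : ∀ X ∈ h, ∀ y ∈ P, X y ∈ Q) : hs h P ≤ Q := by
  apply Submodule.span_le.2
  rintro z ⟨X, hX, y, hy, rfl⟩
  exact H X hX y hy

theorem hs_mono {h : Submodule ℝ (E →L[ℝ] E)} {P Q : Submodule ℝ E} (hPQ : P ≤ Q) :
    hs h P ≤ hs h Q :=
  hs_le fun _ hX _ hy => hs_mem hX (hPQ hy)

theorem pow_mem_of {X : E →L[ℝ] E} {P : Submodule ℝ E} (H : ∀ y ∈ P, X y ∈ P) (m : ℕ) {y : E}
    (hy : y ∈ P) : (X ^ m) y ∈ P := by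
  induction m with
  | zero => simpa using hy
  | succ m ih =>
    rw [pow_succ']
    exact H _ ih

end Basic

section Main

variable {E : Type*} [NormedAddCommGroup E] [NormedSpace ℝ E] [CompleteSpace E]
  [FiniteDimensional ℝ E]

omit [CompleteSpace E] in
theorem hs_lt {W : Submodule ℝ E} {h : Submodule ℝ (E →L[ℝ] E)}
    (comm : ∀ X ∈ h, ∀ Y ∈ h, Commute X Y) (nil : ∀ X ∈ h, IsNilpotent X)
    (hW : ∀ X ∈ h, ∀ w ∈ W, X w ∈ W) (h0 : W ≠ ⊥) : hs h W < W := by
  obtain ⟨d, hd⟩ : ∃ d, finrank ℝ W = d := ⟨_, rfl⟩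
  induction d using Nat.strong_induction_on generalizing W with
  | _ d ih =>
    have hle : hs h W ≤ W := hs_le hW
    refine lt_of_le_of_ne hle fun heq => ?_
    obtain ⟨X, hX, w, hw, hXw⟩ : ∃ X ∈ h, ∃ w ∈ W, X w ≠ 0 := by
      by_contra hcon
      push Not at hcon
      apply h0
      rw [← heq]
      rw [eq_bot_iff]
      apply hs_le
      intro X hX y hy
      rw [hcon X hX y hy]
      exact Submodule.zero_mem _
    set W' : Submodule ℝ E := W.map (X : E →ₗ[ℝ] E) with hW'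
    have hW'mem : ∀ y, y ∈ W' ↔ ∃ v ∈ W, X v = y := by
      intro y
      rw [hW', Submodule.mem_map]
      rfl
    have h1 : W' ≤ W := by
      intro y hy
      obtain ⟨v, hv, rfl⟩ := (hW'mem y).1 hy
      exact hW X hX v hv
    have h2 : W' ≠ W := by
      intro hWW
      obtain ⟨m, hm⟩ := nil X hX
      have key : ∀ m : ℕ, ∀ y ∈ W, ∃ v ∈ W, (X ^ m) v = y := by
        intro m
        induction m with
        | zero => intro y hy; exact ⟨y, hy, by simp⟩
        | succ m ihm =>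
          intro y hy
          obtain ⟨v, hv, hvy⟩ := ihm y hy
          rw [← hWW] at hv
          obtain ⟨u, hu, hux⟩ := (hW'mem v).1 hv
          refine ⟨u, hu, ?_⟩
          rw [pow_succ]
          change (X ^ m) (X u) = y
          rw [hux, hvy]
      apply h0
      rw [eq_bot_iff]
      intro y hy
      obtain ⟨v, _, hvy⟩ := key m y hy
      rw [hm] at hvy
      rw [Submodule.mem_bot, ← hvy]
      rfl
    have h3 : W' ≠ ⊥ := by
      intro hb
      apply hXw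
      have : X w ∈ W' := (hW'mem _).2 ⟨w, hw, rfl⟩
      rw [hb, Submodule.mem_bot] at this
      exact this
    have h4 : ∀ Y ∈ h, ∀ y ∈ W', Y y ∈ W' := by
      intro Y hY y hy
      obtain ⟨v, hv, rfl⟩ := (hW'mem y).1 hy
      refine (hW'mem _).2 ⟨Y v, hW Y hY v hv, ?_⟩
      have := comm X hX Y hY
      exact congrArg (fun T : E →L[ℝ] E => T v) this.eq
    have h5 : finrank ℝ W' < d := by
      rw [← hd]
      exact Submodule.finrank_lt_finrank_of_lt (lt_of_le_of_ne h1 h2)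
    have h6 := ih _ h5 h4 h3 rfl
    have h7 : W' ≤ hs h W' := by
      intro y hy
      obtain ⟨v, hv, rfl⟩ := (hW'mem y).1 hy
      rw [← heq] at hv
      have : ∀ v ∈ hs h W, X v ∈ hs h W' := by
        intro v hv
        induction hv using Submodule.span_induction with
        | mem z hz =>
          obtain ⟨Y, hY, u, hu, rfl⟩ := hz
          have hc := comm X hX Y hY
          have hc2 : X (Y u) = Y (X u) := congrArg (fun T : E →L[ℝ] E => T u) hc.eq
          rw [hc2]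
          exact hs_mem hY ((hW'mem _).2 ⟨u, hu, rfl⟩)
        | zero => rw [map_zero]; exact Submodule.zero_mem _
        | add a b _ _ ha hb => rw [map_add]; exact Submodule.add_mem _ ha hb
        | smul c a _ ha => rw [map_smul]; exact Submodule.smul_mem _ c ha
      exact this v hv
    exact absurd h6 (not_lt_of_ge h7)

omit [FiniteDimensional ℝ E] in
theorem exp_sum_pow {Y : E →L[ℝ] E} {m : ℕ} (h : Y ^ m = 0) :
    exp Y = ∑ i ∈ Finset.range m, ((i.factorial : ℝ)⁻¹) • Y ^ i := by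
  rw [NormedSpace.exp_eq_tsum ℝ]
  apply tsum_eq_sum
  intro i hi
  rw [Finset.mem_range, not_lt] at hi
  rw [pow_eq_zero_of_le hi h, smul_zero]

omit [FiniteDimensional ℝ E] in
theorem exp_sub_mem {Y : E →L[ℝ] E} (hY : IsNilpotent Y) {Q : Submodule ℝ E} {y : E}
    (H : ∀ i : ℕ, (Y ^ (i + 1)) y ∈ Q) : exp Y y - y ∈ Q := by
  obtain ⟨m, hm⟩ := hY
  have hm' : Y ^ (m + 1) = 0 := by rw [pow_succ, hm, zero_mul]
  rw [exp_sum_pow hm', Finset.sum_range_succ']
  have h0 : (((0 : ℕ).factorial : ℝ)⁻¹) • Y ^ 0 = (1 : E →L[ℝ] E) := by simp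
  rw [h0, add_apply, one_apply_eq_self, add_sub_cancel_right,
    sum_apply]
  exact Submodule.sum_mem _ fun i _ => Submodule.smul_mem _ _ (H i)

omit [FiniteDimensional ℝ E] in
theorem exp_sub_sub_mem {Y : E →L[ℝ] E} (hY : IsNilpotent Y) {Q : Submodule ℝ E} {y : E}
    (H : ∀ i : ℕ, (Y ^ (i + 2)) y ∈ Q) : exp Y y - y - Y y ∈ Q := by
  obtain ⟨m, hm⟩ := hY
  have hm' : Y ^ (m + 2) = 0 := by rw [pow_add, hm, zero_mul]
  rw [exp_sum_pow hm', Finset.sum_range_succ', Finset.sum_range_succ']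
  have h0 : (((0 : ℕ).factorial : ℝ)⁻¹) • Y ^ 0 = (1 : E →L[ℝ] E) := by simp
  have h1 : (((0 + 1 : ℕ).factorial : ℝ)⁻¹) • Y ^ (0 + 1) = Y := by simp
  rw [h0, h1, add_apply, add_apply,
    one_apply_eq_self, add_sub_cancel_right, add_sub_cancel_right,
    sum_apply]
  exact Submodule.sum_mem _ fun i _ => Submodule.smul_mem _ _ (H i)

variable {W : Submodule ℝ E} {x₀ : E} {h : Submodule ℝ (E →L[ℝ] E)}

omit [CompleteSpace E] [FiniteDimensional ℝ E] in
theorem Lin.pow_x (L : Lin W x₀ h) {Y : E →L[ℝ] E} (hY : Y ∈ h) (i : ℕ) :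
    (Y ^ (i + 1)) x₀ ∈ W := by
  rw [pow_succ]
  exact pow_mem_of (L.hW Y hY) i (L.hx Y hY)

omit [FiniteDimensional ℝ E] in
theorem Lin.exp_x (L : Lin W x₀ h) {Y : E →L[ℝ] E} (hY : Y ∈ h) :
    exp Y x₀ - x₀ - Y x₀ ∈ hs h W := by
  apply exp_sub_sub_mem (L.nil Y hY)
  intro i
  have : (Y ^ (i + 2)) x₀ = Y ((Y ^ (i + 1)) x₀) := by
    rw [show i + 2 = (i + 1) + 1 from rfl, pow_succ']
    rfl
  rw [this]
  exact hs_mem hY (L.pow_x hY i)

omit [FiniteDimensional ℝ E] in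
theorem Lin.exp_w (L : Lin W x₀ h) {Y : E →L[ℝ] E} (hY : Y ∈ h) {w : E} (hw : w ∈ W) :
    exp Y w - w ∈ hs h W := by
  apply exp_sub_mem (L.nil Y hY)
  intro i
  rw [pow_succ']
  change Y ((Y ^ i) w) ∈ _
  exact hs_mem hY (pow_mem_of (L.hW Y hY) i hw)

omit [CompleteSpace E] [FiniteDimensional ℝ E] in
theorem Lin.hs_le_W (L : Lin W x₀ h) : hs h W ≤ W := hs_le L.hW

omit [FiniteDimensional ℝ E] in
theorem Lin.exp_mem_W (L : Lin W x₀ h) {Y : E →L[ℝ] E} (hY : Y ∈ h) {w : E} (hw : w ∈ W) :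
    exp Y w ∈ W := by
  have := W.add_mem (L.hs_le_W (L.exp_w hY hw)) hw
  simpa using this

omit [CompleteSpace E] [FiniteDimensional ℝ E] in
/-- the evaluation map at `x₀` is injective on `h` -/
theorem Lin.inj0 (L : Lin W x₀ h) {X : E →L[ℝ] E} (hX : X ∈ h) (h0 : X x₀ = 0) : X = 0 :=
  L.inj X hX 0 W.zero_mem (by rw [add_zero]; exact h0)

/-- Evaluation `h → W`, `X ↦ X x₀`. -/
noncomputable def Lin.ev (L : Lin W x₀ h) : h →ₗ[ℝ] W where
  toFun X := ⟨(X : E →L[ℝ] E) x₀, L.hx X X.2⟩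
  map_add' X Y := rfl
  map_smul' c X := rfl

omit [CompleteSpace E] [FiniteDimensional ℝ E] in
theorem Lin.ev_inj (L : Lin W x₀ h) : Function.Injective L.ev := by
  rw [injective_iff_map_eq_zero]
  intro X hX
  apply Subtype.ext
  apply L.inj0 X.2
  exact congrArg (Subtype.val) hX

omit [CompleteSpace E] in
theorem Lin.finrank_le (L : Lin W x₀ h) : finrank ℝ h ≤ finrank ℝ W :=
  LinearMap.finrank_le_finrank_of_injective L.ev_inj

/-- The elements of `h` that move `x₀` inside `P`. -/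
def h1 (h : Submodule ℝ (E →L[ℝ] E)) (x₀ : E) (P : Submodule ℝ E) :
    Submodule ℝ (E →L[ℝ] E) where
  carrier := {X | X ∈ h ∧ X x₀ ∈ P}
  add_mem' := by
    rintro X Y ⟨hX, hX'⟩ ⟨hY, hY'⟩
    exact ⟨h.add_mem hX hY, P.add_mem hX' hY'⟩
  zero_mem' := ⟨h.zero_mem, P.zero_mem⟩
  smul_mem' := by
    rintro c X ⟨hX, hX'⟩
    exact ⟨h.smul_mem c hX, P.smul_mem c hX'⟩

omit [CompleteSpace E] [FiniteDimensional ℝ E] in
theorem mem_h1 {P : Submodule ℝ E} {X : E →L[ℝ] E} : X ∈ h1 h x₀ P ↔ X ∈ h ∧ X x₀ ∈ P :=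
  Iff.rfl

omit [CompleteSpace E] [FiniteDimensional ℝ E] in
theorem Lin.step (L : Lin W x₀ h) : Lin (hs h W) x₀ (h1 h x₀ (hs h W)) where
  comm X hX Y hY := L.comm X hX.1 Y hY.1
  nil X hX := L.nil X hX.1
  hx X hX := hX.2
  hW X hX w hw := hs_mem hX.1 (L.hs_le_W hw)
  inj X hX w hw h0 := L.inj X hX.1 w (L.hs_le_W hw) h0

theorem trans {W : Submodule ℝ E} {x₀ : E} {h : Submodule ℝ (E →L[ℝ] E)} (L : Lin W x₀ h)
    (hd : finrank ℝ W ≤ finrank ℝ h) (w : E) (hw : w ∈ W) :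
    ∃ X ∈ h, exp X x₀ = x₀ + w := by
  obtain ⟨d, hdd⟩ : ∃ d, finrank ℝ W = d := ⟨_, rfl⟩
  induction d using Nat.strong_induction_on generalizing W h w with
  | _ d ih =>
    by_cases h0 : W = ⊥
    · subst h0
      rw [Submodule.mem_bot] at hw
      subst hw
      exact ⟨0, h.zero_mem, by rw [exp_zero, add_zero]; rfl⟩
    have hlt := hs_lt L.comm L.nil L.hW h0
    have hfe : finrank ℝ h = finrank ℝ W := le_antisymm L.finrank_le hd
    have hsurj : Function.Surjective L.ev :=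
      (LinearMap.injective_iff_surjective_of_finrank_eq_finrank hfe).1 L.ev_inj
    have hsurj' : ∀ v ∈ W, ∃ Y ∈ h, Y x₀ = v := by
      intro v hv
      obtain ⟨Y, hY⟩ := hsurj ⟨v, hv⟩
      exact ⟨Y, Y.2, congrArg Subtype.val hY⟩
    have hd1 : finrank ℝ (hs h W) ≤ finrank ℝ (h1 h x₀ (hs h W)) := by
      have hs1 : Function.Surjective L.step.ev := by
        rintro ⟨v, hv⟩
        obtain ⟨Y, hY, hYv⟩ := hsurj' v (L.hs_le_W hv)
        refine ⟨⟨Y, hY, ?_⟩, Subtype.ext hYv⟩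
        rw [hYv]
        exact hv
      exact LinearMap.finrank_le_finrank_of_surjective hs1
    obtain ⟨Y, hY, hYw⟩ := hsurj' w hw
    -- exp(-Y)(x₀+w) = x₀ + w'
    have hY' : -Y ∈ h := h.neg_mem hY
    have hmem : exp (-Y) (x₀ + w) - x₀ ∈ hs h W := by
      have e1 := L.exp_x hY'
      have e2 := L.exp_w hY' hw
      have : exp (-Y) (x₀ + w) - x₀ =
          (exp (-Y) x₀ - x₀ - (-Y) x₀) + (exp (-Y) w - w) := by
        rw [map_add, neg_apply, hYw]
        abel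
      rw [this]
      exact Submodule.add_mem _ e1 e2
    have hlt' : finrank ℝ (hs h W) < d := by
      rw [← hdd]
      exact Submodule.finrank_lt_finrank_of_lt hlt
    obtain ⟨X', hX', hX'e⟩ := ih _ hlt' L.step hd1 _ hmem rfl
    refine ⟨Y + X', h.add_mem hY hX'.1, ?_⟩
    rw [exp_add_comm' (L.comm Y hY X' hX'.1)]
    change exp Y (exp X' x₀) = x₀ + w
    rw [hX'e, add_sub_cancel]
    change (exp Y * exp (-Y)) (x₀ + w) = x₀ + w
    rw [exp_mul_exp_neg]
    rfl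

end Main

end Pool.Agent.H71.AU
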