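import Mathlib
import Pool.Agent.H71.AU.Defs
import Pool.Agent.H71.AU.OrbA

/-! Orbit lemmas, part B: derived series inside the ambient group, the recursion step. -/

set_option autoImplicit false

namespace Pool.Agent.H71.AU

open NormedSpace Module

open scoped commutatorElement

section Grp

variable {G : Type*} [Group G]

theorem ds_zero (H : Subgroup G) : ds H 0 = H := rfl

theorem ds_succ (H : Subgroup G) (e : ℕ) : ds H (e + 1) = ⁅ds H e, ds H e⁆ := rfl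

theorem ds_mono {H K : Subgroup G} (hHK : H ≤ K) (e : ℕ) : ds H e ≤ ds K e := by
  induction e with
  | zero => exact hHK
  | succ e ih => exact Subgroup.commutator_mono ih ih

theorem ds_succ_le (H : Subgroup G) (e : ℕ) : ds H (e + 1) ≤ ds H e := by
  rw [ds_succ]
  apply Subgroup.commutator_le.2
  intro a ha b hb
  exact (ds H e).mul_mem ((ds H e).mul_mem ((ds H e).mul_mem ha hb) ((ds H e).inv_mem ha))
    ((ds H e).inv_mem hb)

theorem ds_le (H : Subgroup G) (e : ℕ) : ds H e ≤ H := by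
  induction e with
  | zero => exact le_rfl
  | succ e ih => exact (ds_succ_le H e).trans ih

theorem ds_ds (H : Subgroup G) (a b : ℕ) : ds (ds H a) b = ds H (a + b) := by
  induction b with
  | zero => rfl
  | succ b ih =>
    rw [ds_succ, ih]
    rfl

/-- If `G = N K` with `N` normalised by `G`, then the derived series of `G` is contained in
`N` times the derived series of `K`. -/
theorem ds_prod (G' N K : Subgroup G) (hN : N ≤ G') (hK : K ≤ G')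
    (hn : ∀ g ∈ G', ∀ n ∈ N, g * n * g⁻¹ ∈ N)
    (hp : ∀ g ∈ G', ∃ n ∈ N, ∃ k ∈ K, g = n * k) (e : ℕ) :
    ∀ g ∈ ds G' e, ∃ n ∈ N, ∃ k ∈ ds K e, g = n * k := by
  induction e with
  | zero => exact hp
  | succ e ih =>
    have hKe : ∀ k ∈ ds K (e + 1), k ∈ G' := fun k hk => hK (ds_le K _ hk)
    let S : Subgroup G :=
      { carrier := {g | ∃ n ∈ N, ∃ k ∈ ds K (e + 1), g = n * k}
        mul_mem' := by
          rintro a b ⟨n, hn1, k, hk, rfl⟩ ⟨n', hn1', k', hk', rfl⟩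
          refine ⟨n * (k * n' * k⁻¹), N.mul_mem hn1 (hn k (hKe k hk) n' hn1'), k * k',
            (ds K (e + 1)).mul_mem hk hk', ?_⟩
          group
        one_mem' := ⟨1, N.one_mem, 1, (ds K (e + 1)).one_mem, by group⟩
        inv_mem' := by
          rintro a ⟨n, hn1, k, hk, rfl⟩
          refine ⟨k⁻¹ * n⁻¹ * (k⁻¹)⁻¹, hn _ (G'.inv_mem (hKe k hk)) _ (N.inv_mem hn1), k⁻¹,
            (ds K (e + 1)).inv_mem hk, ?_⟩
          group }
    have hle : ds G' (e + 1) ≤ S := by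
      rw [ds_succ]
      apply Subgroup.commutator_le.2
      intro g hg g' hg'
      obtain ⟨n, hn1, k, hk, rfl⟩ := ih g hg
      obtain ⟨n', hn1', k', hk', rfl⟩ := ih g' hg'
      have hkG : k ∈ G' := hK (ds_le K _ hk)
      have hkG' : k' ∈ G' := hK (ds_le K _ hk')
      have hc : ⁅k, k'⁆ ∈ ds K (e + 1) := Subgroup.commutator_mem_commutator hk hk'
      refine ⟨n * (k * n' * k⁻¹) * ((k * k' * k⁻¹) * n⁻¹ * (k * k' * k⁻¹)⁻¹) *
        (⁅k, k'⁆ * n'⁻¹ * ⁅k, k'⁆⁻¹), ?_, ⁅k, k'⁆, hc, ?_⟩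
      · refine N.mul_mem (N.mul_mem (N.mul_mem hn1 (hn k hkG n' hn1')) ?_) ?_
        · exact hn _ (G'.mul_mem (G'.mul_mem hkG hkG') (G'.inv_mem hkG)) _ (N.inv_mem hn1)
        · exact hn _ (hKe _ hc) _ (N.inv_mem hn1')
      · rw [commutatorElement_def, commutatorElement_def]
        group
    exact fun g hg => hle hg

end Grp

section Orb

variable {E : Type*} [NormedAddCommGroup E] [NormedSpace ℝ E] [CompleteSpace E]

/-- `y` is in the `exp h` orbit of `x`. -/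
def rel (h : Submodule ℝ (E →L[ℝ] E)) (x y : E) : Prop := ∃ X ∈ h, y = exp X x

theorem rel_refl (h : Submodule ℝ (E →L[ℝ] E)) (x : E) : rel h x x :=
  ⟨0, h.zero_mem, by rw [exp_zero]; rfl⟩

theorem rel_symm {h : Submodule ℝ (E →L[ℝ] E)} {x y : E} (hxy : rel h x y) : rel h y x := by
  obtain ⟨X, hX, rfl⟩ := hxy
  refine ⟨-X, h.neg_mem hX, ?_⟩
  change x = (exp (-X) * exp X) x
  rw [exp_neg_mul_exp]
  rfl

theorem rel_trans {h : Submodule ℝ (E →L[ℝ] E)} (comm : ∀ X ∈ h, ∀ Y ∈ h, Commute X Y)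
    {x y z : E} (hxy : rel h x y) (hyz : rel h y z) : rel h x z := by
  obtain ⟨X, hX, rfl⟩ := hxy
  obtain ⟨Y, hY, rfl⟩ := hyz
  refine ⟨Y + X, h.add_mem hY hX, ?_⟩
  rw [exp_add_comm' (comm Y hY X hX)]
  rfl

theorem rel_act {h : Submodule ℝ (E →L[ℝ] E)} {g : (E →L[ℝ] E)ˣ}
    (conj : ∀ X ∈ h, (g : E →L[ℝ] E) * X * ((g⁻¹ : (E →L[ℝ] E)ˣ) : E →L[ℝ] E) ∈ h)
    {x y : E} (hxy : rel h x y) : rel h ((g : E →L[ℝ] E) x) ((g : E →L[ℝ] E) y) := by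
  obtain ⟨X, hX, rfl⟩ := hxy
  refine ⟨_, conj X hX, ?_⟩
  rw [exp_conj']
  change _ = (g : E →L[ℝ] E) (exp X ((((g⁻¹ : (E →L[ℝ] E)ˣ) : E →L[ℝ] E) * (g : E →L[ℝ] E)) x))
  rw [Units.inv_mul]
  rfl

theorem rel_mono {h h' : Submodule ℝ (E →L[ℝ] E)} (hh : h ≤ h') {x y : E} (hxy : rel h x y) :
    rel h' x y := by
  obtain ⟨X, hX, rfl⟩ := hxy
  exact ⟨X, hh hX, rfl⟩

/-- Elements of `G` moving every point of `P` inside `U`. -/
def trv (G : Subgroup (E →L[ℝ] E)ˣ) (U : Submodule ℝ E)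
    (hGU : ∀ g ∈ G, ∀ u ∈ U, (g : E →L[ℝ] E) u ∈ U) (P : Set E) :
    Subgroup (E →L[ℝ] E)ˣ where
  carrier := {g | g ∈ G ∧ ∀ y ∈ P, (g : E →L[ℝ] E) y - y ∈ U}
  mul_mem' := by
    rintro a b ⟨ha, ha'⟩ ⟨hb, hb'⟩
    refine ⟨G.mul_mem ha hb, fun y hy => ?_⟩
    have h1 := hGU a ha _ (hb' y hy)
    have h2 := U.add_mem h1 (ha' y hy)
    rw [map_sub] at h2
    have h3 : (((a * b : (E →L[ℝ] E)ˣ) : E →L[ℝ] E)) y = (a : E →L[ℝ] E) ((b : E →L[ℝ] E) y) := rfl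
    rw [h3]
    convert h2 using 1
    abel
  one_mem' := ⟨G.one_mem, fun y _ => by
    change y - y ∈ U
    rw [sub_self]
    exact U.zero_mem⟩
  inv_mem' := by
    rintro a ⟨ha, ha'⟩
    refine ⟨G.inv_mem ha, fun y hy => ?_⟩
    have h1 := hGU _ (G.inv_mem ha) _ (ha' y hy)
    have h2 := U.neg_mem h1
    rw [map_sub] at h2
    have h3 : ((a⁻¹ : (E →L[ℝ] E)ˣ) : E →L[ℝ] E) ((a : E →L[ℝ] E) y) = y := by
      change ((((a⁻¹ : (E →L[ℝ] E)ˣ) : E →L[ℝ] E)) * (a : E →L[ℝ] E)) y = y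
      rw [Units.inv_mul]
      rfl
    rw [h3] at h2
    convert h2 using 1
    abel

theorem mem_trv {G : Subgroup (E →L[ℝ] E)ˣ} {U : Submodule ℝ E}
    {hGU : ∀ g ∈ G, ∀ u ∈ U, (g : E →L[ℝ] E) u ∈ U} {P : Set E} {g : (E →L[ℝ] E)ˣ} :
    g ∈ trv G U hGU P ↔ g ∈ G ∧ ∀ y ∈ P, (g : E →L[ℝ] E) y - y ∈ U := Iff.rfl

theorem inv_val_apply (g : (E →L[ℝ] E)ˣ) (y : E) :
    ((g⁻¹ : (E →L[ℝ] E)ˣ) : E →L[ℝ] E) ((g : E →L[ℝ] E) y) = y := by
  change ((((g⁻¹ : (E →L[ℝ] E)ˣ) : E →L[ℝ] E)) * (g : E →L[ℝ] E)) y = y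
  rw [Units.inv_mul]
  rfl

theorem val_inv_apply (g : (E →L[ℝ] E)ˣ) (y : E) :
    (g : E →L[ℝ] E) (((g⁻¹ : (E →L[ℝ] E)ˣ) : E →L[ℝ] E) y) = y := by
  change ((g : E →L[ℝ] E) * (((g⁻¹ : (E →L[ℝ] E)ˣ) : E →L[ℝ] E))) y = y
  rw [Units.mul_inv]
  rfl

theorem mul_val_apply (g g' : (E →L[ℝ] E)ˣ) (y : E) :
    ((g * g' : (E →L[ℝ] E)ˣ) : E →L[ℝ] E) y = (g : E →L[ℝ] E) ((g' : E →L[ℝ] E) y) := rfl

/-- A commutator moves `y` inside `U` as soon as the two products agree modulo `U` at the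
preimage of `y`. -/
theorem comm_apply_mem {U : Submodule ℝ E} (g g' : (E →L[ℝ] E)ˣ) (y u : E)
    (hu : (g' : E →L[ℝ] E) ((g : E →L[ℝ] E) u) = y)
    (H : (g : E →L[ℝ] E) ((g' : E →L[ℝ] E) u) - (g' : E →L[ℝ] E) ((g : E →L[ℝ] E) u) ∈ U) :
    ((⁅g, g'⁆ : (E →L[ℝ] E)ˣ) : E →L[ℝ] E) y - y ∈ U := by
  rw [commutatorElement_def, ← hu]
  rw [mul_val_apply, mul_val_apply, mul_val_apply, inv_val_apply, inv_val_apply]
  exact H

variable {W : Submodule ℝ E} {x₀ : E} {h : Submodule ℝ (E →L[ℝ] E)}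
  {G : Subgroup (E →L[ℝ] E)ˣ}

theorem Dat.G_hs (D : Dat W x₀ h G) {P : Submodule ℝ E}
    (hP : ∀ g ∈ G, ∀ y ∈ P, (g : E →L[ℝ] E) y ∈ P) :
    ∀ g ∈ G, ∀ y ∈ hs h P, (g : E →L[ℝ] E) y ∈ hs h P := by
  intro g hg y hy
  induction hy using Submodule.span_induction with
  | mem z hz =>
    obtain ⟨X, hX, p, hp, rfl⟩ := hz
    have : (g : E →L[ℝ] E) (X p) =
        ((g : E →L[ℝ] E) * X * ((g⁻¹ : (E →L[ℝ] E)ˣ) : E →L[ℝ] E)) ((g : E →L[ℝ] E) p) := by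
      change _ = (g : E →L[ℝ] E) (X (((g⁻¹ : (E →L[ℝ] E)ˣ) : E →L[ℝ] E) ((g : E →L[ℝ] E) p)))
      rw [inv_val_apply]
    rw [this]
    exact hs_mem (D.conj g hg X hX) (hP g hg p hp)
  | zero => rw [map_zero]; exact Submodule.zero_mem _
  | add a b _ _ ha hb => rw [map_add]; exact Submodule.add_mem _ ha hb
  | smul c a _ ha => rw [map_smul]; exact Submodule.smul_mem _ c ha

/-- The stabiliser of `x₀ + hs h W`. -/
def G1 (D : Dat W x₀ h G) : Subgroup (E →L[ℝ] E)ˣ := trv G (hs h W) (D.G_hs D.GW) {x₀}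

theorem mem_G1 (D : Dat W x₀ h G) {g : (E →L[ℝ] E)ˣ} :
    g ∈ G1 D ↔ g ∈ G ∧ (g : E →L[ℝ] E) x₀ - x₀ ∈ hs h W := by
  unfold G1
  rw [mem_trv]
  simp

theorem Dat.step (D : Dat W x₀ h G) : Dat (hs h W) x₀ (h1 h x₀ (hs h W)) (G1 D) where
  toLin := D.toLin.step
  conj := by
    intro g hg X hX
    have hg1 := (mem_G1 D).1 hg
    have hgi := (mem_G1 D).1 ((G1 D).inv_mem hg)
    refine ⟨D.conj g hg1.1 X hX.1, ?_⟩
    change (g : E →L[ℝ] E) (X (((g⁻¹ : (E →L[ℝ] E)ˣ) : E →L[ℝ] E) x₀)) ∈ hs h W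
    have e1 : ((g⁻¹ : (E →L[ℝ] E)ˣ) : E →L[ℝ] E) x₀ =
        x₀ + (((g⁻¹ : (E →L[ℝ] E)ˣ) : E →L[ℝ] E) x₀ - x₀) := by abel
    rw [e1, map_add, map_add]
    refine Submodule.add_mem _ (D.G_hs D.GW g hg1.1 _ hX.2) ?_
    exact D.G_hs D.GW g hg1.1 _ (hs_mem hX.1 (D.toLin.hs_le_W hgi.2))
  GW := by
    intro g hg w hw
    exact D.G_hs D.GW g ((mem_G1 D).1 hg).1 w hw
  Gx := by
    intro g hg
    exact ((mem_G1 D).1 hg).2
  ex := by
    intro X hX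
    refine (mem_G1 D).2 ⟨D.ex X hX.1, ?_⟩
    have e1 := Submodule.add_mem _ (D.toLin.exp_x hX.1) hX.2
    rw [ue_val]
    convert e1 using 1
    abel

theorem finrank_step [FiniteDimensional ℝ E] (D : Dat W x₀ h G) :
    finrank ℝ (hs h W) + finrank ℝ h ≤
      finrank ℝ (h1 h x₀ (hs h W)) + finrank ℝ W := by
  set U := hs h W with hU
  have hUW : U ≤ W := D.toLin.hs_le_W
  -- the map h → E ⧸ U
  let φ : h →ₗ[ℝ] (E ⧸ U) :=
    { toFun := fun X => U.mkQ ((X : E →L[ℝ] E) x₀)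
      map_add' := fun X Y => by
        change U.mkQ ((X : E →L[ℝ] E) x₀ + (Y : E →L[ℝ] E) x₀) = _
        rw [map_add]
      map_smul' := fun c X => by
        change U.mkQ (c • (X : E →L[ℝ] E) x₀) = _
        rw [map_smul]
        rfl }
  have h1' := LinearMap.finrank_range_add_finrank_ker φ
  let ψ : W →ₗ[ℝ] (E ⧸ U) := U.mkQ.comp W.subtype
  have h2' := LinearMap.finrank_range_add_finrank_ker ψ
  have h3 : LinearMap.range φ ≤ LinearMap.range ψ := by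
    rintro _ ⟨X, rfl⟩
    exact ⟨⟨(X : E →L[ℝ] E) x₀, D.hx X X.2⟩, rfl⟩
  have h4 := Submodule.finrank_mono h3
  have h5 : finrank ℝ (LinearMap.ker φ) ≤ finrank ℝ (h1 h x₀ U) := by
    let f : LinearMap.ker φ →ₗ[ℝ] h1 h x₀ U :=
      { toFun := fun X => ⟨(X : h), by
          refine ⟨(X : h).2, ?_⟩
          have := X.2
          rw [LinearMap.mem_ker] at this
          exact (Submodule.Quotient.mk_eq_zero U).1 this⟩
        map_add' := fun X Y => rfl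
        map_smul' := fun c X => rfl }
    apply LinearMap.finrank_le_finrank_of_injective (f := f)
    intro X Y hXY
    apply Subtype.ext
    apply Subtype.ext
    exact congrArg (fun Z : h1 h x₀ U => (Z : E →L[ℝ] E)) hXY
  have h6 : finrank ℝ U ≤ finrank ℝ (LinearMap.ker ψ) := by
    let f : U →ₗ[ℝ] LinearMap.ker ψ :=
      { toFun := fun u => ⟨⟨u, hUW u.2⟩, by
          rw [LinearMap.mem_ker]
          exact (Submodule.Quotient.mk_eq_zero U).2 u.2⟩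
        map_add' := fun X Y => rfl
        map_smul' := fun c X => rfl }
    apply LinearMap.finrank_le_finrank_of_injective (f := f)
    intro X Y hXY
    apply Subtype.ext
    exact congrArg (fun Z : LinearMap.ker ψ => ((Z : W) : E)) hXY
  omega

theorem Dat.to_base (D : Dat W x₀ h G) (b0 : ∀ w ∈ W, ∃ Y ∈ h, w - Y x₀ ∈ hs h W)
    {w : E} (hw : w ∈ W) : ∃ w₁ ∈ hs h W, rel h (x₀ + w₁) (x₀ + w) := by
  obtain ⟨Y, hY, hYw⟩ := b0 w hw
  have hY' : -Y ∈ h := h.neg_mem hY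
  refine ⟨exp (-Y) (x₀ + w) - x₀, ?_, Y, hY, ?_⟩
  · have e1 := D.toLin.exp_x hY'
    have e2 := D.toLin.exp_w hY' hw
    have e3 := Submodule.add_mem _ (Submodule.add_mem _ e1 e2) hYw
    convert e3 using 1
    rw [map_add, neg_apply]
    abel
  · rw [add_sub_cancel]
    change x₀ + w = (exp Y * exp (-Y)) (x₀ + w)
    rw [exp_mul_exp_neg]
    rfl

theorem Dat.rel_G (D : Dat W x₀ h G) {g : (E →L[ℝ] E)ˣ} (hg : g ∈ G) {x y : E}
    (hxy : rel h x y) : rel h ((g : E →L[ℝ] E) x) ((g : E →L[ℝ] E) y) :=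
  rel_act (D.conj g hg) hxy

/-- The subgroup `exp h`. -/
def Nh (comm : ∀ X ∈ h, ∀ Y ∈ h, Commute X Y) : Subgroup (E →L[ℝ] E)ˣ where
  carrier := {g | ∃ X ∈ h, g = ue X}
  mul_mem' := by
    rintro a b ⟨X, hX, rfl⟩ ⟨Y, hY, rfl⟩
    exact ⟨X + Y, h.add_mem hX hY, (ue_add (comm X hX Y hY)).symm⟩
  one_mem' := ⟨0, h.zero_mem, ue_zero.symm⟩
  inv_mem' := by
    rintro a ⟨X, hX, rfl⟩
    exact ⟨-X, h.neg_mem hX, (ue_neg X).symm⟩

theorem Dat.lift (D : Dat W x₀ h G) (b0 : ∀ w ∈ W, ∃ Y ∈ h, w - Y x₀ ∈ hs h W) (e : ℕ)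
    (H : ∀ g ∈ ds (G1 D) e, ∀ w ∈ hs h W,
      rel (h1 h x₀ (hs h W)) (x₀ + w) ((g : E →L[ℝ] E) (x₀ + w))) :
    ∀ g ∈ ds G e, ∀ w ∈ W, rel h (x₀ + w) ((g : E →L[ℝ] E) (x₀ + w)) := by
  have hp := ds_prod G (Nh D.comm) (G1 D)
    (by
      rintro g ⟨X, hX, rfl⟩
      exact D.ex X hX)
    (fun g hg => ((mem_G1 D).1 hg).1)
    (by
      rintro g hg n ⟨X, hX, rfl⟩
      exact ⟨_, D.conj g hg X hX, (ue_conj g X).symm⟩)
    (by
      intro g hg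
      obtain ⟨w₁, hw₁, Y, hY, hYe⟩ := D.to_base b0 (D.Gx g hg)
      refine ⟨ue Y, ⟨Y, hY, rfl⟩, (ue Y)⁻¹ * g, ?_, by group⟩
      refine (mem_G1 D).2 ⟨G.mul_mem (G.inv_mem (D.ex Y hY)) hg, ?_⟩
      rw [mul_val_apply]
      have e1 : (g : E →L[ℝ] E) x₀ = exp Y (x₀ + w₁) := by
        rw [← hYe]
        abel
      rw [e1, ← ue_val, inv_val_apply, add_sub_cancel_left]
      exact hw₁) e
  intro g hg w hw
  obtain ⟨n, ⟨Y, hY, rfl⟩, k, hk, rfl⟩ := hp g hg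
  obtain ⟨w₁, hw₁, hr⟩ := D.to_base b0 hw
  have hgG : ue Y * k ∈ G := ds_le G e hg
  have r1 := D.rel_G hgG hr
  have r2 : rel h ((k : E →L[ℝ] E) (x₀ + w₁)) (((ue Y * k : (E →L[ℝ] E)ˣ) : E →L[ℝ] E) (x₀ + w₁)) :=
    ⟨Y, hY, rfl⟩
  have r3 : rel h (x₀ + w₁) ((k : E →L[ℝ] E) (x₀ + w₁)) :=
    rel_mono (fun X hX => (mem_h1.1 hX).1) (H k hk w₁ hw₁)
  exact rel_trans D.comm (rel_symm hr) (rel_trans D.comm r3 (rel_trans D.comm r2 r1))

end Orb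

end Pool.Agent.H71.AU
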