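import Mathlib
import Pool.Agent.H71.AU.Defs

/-! AU-4: a group of real two by two matrices of determinant one, in which every element has
eigenvalue one or finite order, has a common eigenvector or is abelian. -/

set_option autoImplicit false

namespace Pool.Agent.H71.AU

theorem matB_ch (M : Matrix (Fin 2) (Fin 2) ℝ) (hM : M.det = 1) :
    M * M = M.trace • M - 1 := by
  rw [Matrix.det_fin_two] at hM
  ext i j
  fin_cases i <;> fin_cases j
  · simp only [Matrix.mul_apply, Fin.sum_univ_two, Matrix.sub_apply, Matrix.smul_apply,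
      Matrix.trace_fin_two, smul_eq_mul, Matrix.one_apply, Fin.zero_eta, Fin.mk_one, if_true]
    linear_combination (-1 : ℝ) * hM
  · simp [Matrix.mul_apply, Fin.sum_univ_two, Matrix.trace_fin_two]
    ring
  · simp [Matrix.mul_apply, Fin.sum_univ_two, Matrix.trace_fin_two]
    ring
  · simp only [Matrix.mul_apply, Fin.sum_univ_two, Matrix.sub_apply, Matrix.smul_apply,
      Matrix.trace_fin_two, smul_eq_mul, Matrix.one_apply, Fin.zero_eta, Fin.mk_one, if_true]
    linear_combination (-1 : ℝ) * hM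

theorem matB_det_sub (M : Matrix (Fin 2) (Fin 2) ℝ) (hM : M.det = 1) :
    (M - 1).det = 2 - M.trace := by
  rw [Matrix.det_fin_two] at hM ⊢
  simp [Matrix.trace_fin_two]
  linear_combination hM

theorem matB_tr (M : Matrix (Fin 2) (Fin 2) ℝ) (hM : M.det = 1) (k : ℕ) (hk : 0 < k)
    (hMk : M ^ k = 1) : |M.trace| ≤ 2 := by
  by_contra hc
  push Not at hc
  have hrec : ∀ m : ℕ, (M ^ (m + 2)).trace = M.trace * (M ^ (m + 1)).trace - (M ^ m).trace := by
    intro m
    have : M ^ (m + 2) = M.trace • M ^ (m + 1) - M ^ m := by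
      rw [pow_add, pow_two, matB_ch M hM, mul_sub, mul_one, Matrix.mul_smul, pow_succ]
    rw [this, Matrix.trace_sub, Matrix.trace_smul, smul_eq_mul]
  have hinc : ∀ m : ℕ, |(M ^ m).trace| < |(M ^ (m + 1)).trace| := by
    intro m
    induction m with
    | zero =>
      rw [pow_zero, zero_add, pow_one, Matrix.trace_one]
      simpa using hc
    | succ m ih =>
      rw [hrec m]
      have h1 : |M.trace * (M ^ (m + 1)).trace| - |(M ^ m).trace| ≤
          |M.trace * (M ^ (m + 1)).trace - (M ^ m).trace| := abs_sub_abs_le_abs_sub _ _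
      rw [abs_mul] at h1
      have h2 : 2 * |(M ^ (m + 1)).trace| ≤ |M.trace| * |(M ^ (m + 1)).trace| :=
        mul_le_mul_of_nonneg_right hc.le (abs_nonneg _)
      linarith
  have hgt : ∀ m : ℕ, 0 < m → 2 < |(M ^ m).trace| := by
    intro m hm
    induction m with
    | zero => omega
    | succ m ih =>
      rcases Nat.eq_zero_or_pos m with h0 | h0
      · subst h0
        simpa using hc
      · exact lt_trans (ih h0) (hinc m)
  have := hgt k hk
  rw [hMk, Matrix.trace_one] at this
  simp at this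

theorem matB_line (N H : Matrix (Fin 2) (Fin 2) ℝ) (hN : N.trace = 0) (hNd : N.det = 0)
    (hNH : (N * H).trace = 0) (hy : N 0 1 ≠ 0) :
    H.mulVec ![N 0 1, - N 0 0] 0 * (![N 0 1, - N 0 0] : Fin 2 → ℝ) 1 -
      H.mulVec ![N 0 1, - N 0 0] 1 * (![N 0 1, - N 0 0] : Fin 2 → ℝ) 0 = 0 := by
  rw [Matrix.trace_fin_two] at hN hNH
  rw [Matrix.det_fin_two] at hNd
  simp only [Matrix.mul_apply, Fin.sum_univ_two] at hNH
  simp only [Matrix.mulVec, dotProduct, Fin.sum_univ_two, Matrix.cons_val_zero,
    Matrix.cons_val_one, Matrix.cons_val_fin_one]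
  have h11 : N 1 1 = - N 0 0 := by linarith
  rw [h11] at hNH hNd
  linear_combination (-N 0 1) * hNH - H 0 1 * hNd

theorem matB {G : Type*} [Group G] (ρ : G →* Matrix (Fin 2) (Fin 2) ℝ)
    (hdet : ∀ g, (ρ g).det = 1)
    (h : ∀ g, (ρ g - 1).det = 0 ∨ ∃ k : ℕ, 0 < k ∧ (ρ g) ^ k = 1) :
    (∃ p : Fin 2 → ℝ, p ≠ 0 ∧
      ∀ g, (ρ g).mulVec p 0 * p 1 - (ρ g).mulVec p 1 * p 0 = 0) ∨
    (∀ g g', ρ g * ρ g' = ρ g' * ρ g) := by
  have htr : ∀ g, |(ρ g).trace| ≤ 2 := by
    intro g
    rcases h g with h1 | ⟨k, hk, hk1⟩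
    · rw [matB_det_sub _ (hdet g)] at h1
      have : (ρ g).trace = 2 := by linarith
      rw [this]; norm_num
    · exact matB_tr _ (hdet g) k hk hk1
  by_cases hu : ∃ u, (ρ u).trace = 2 ∧ ρ u ≠ 1
  · left
    obtain ⟨u, hu2, hu1⟩ := hu
    obtain ⟨N, hN⟩ : ∃ N, N = ρ u - 1 := ⟨_, rfl⟩
    have hNt : N.trace = 0 := by
      rw [hN, Matrix.trace_sub, hu2, Matrix.trace_one]; simp
    have hNd : N.det = 0 := by
      rw [hN, matB_det_sub _ (hdet u), hu2]; ring
    have hNN : N * N = 0 := by
      have e : ρ u = N + 1 := by rw [hN]; simp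
      have := matB_ch (ρ u) (hdet u)
      rw [hu2, e] at this
      have h3 : (N + 1) * (N + 1) = N * N + (2 : ℝ) • N + 1 := by
        rw [add_mul, mul_add, mul_one, one_mul, two_smul]; abel
      rw [h3] at this
      have h4 : (2 : ℝ) • (N + 1) - 1 = (2 : ℝ) • N + 1 := by
        rw [smul_add, two_smul ℝ (1 : Matrix (Fin 2) (Fin 2) ℝ)]; abel
      rw [h4] at this
      have h5 : N * N + ((2 : ℝ) • N + 1) = 0 + ((2 : ℝ) • N + 1) := by
        rw [zero_add, ← add_assoc]; exact this
      exact add_right_cancel h5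
    have hpow : ∀ m : ℕ, ρ (u ^ m) = 1 + (m : ℝ) • N := by
      intro m
      induction m with
      | zero => simp
      | succ m ih =>
        rw [pow_succ, map_mul, ih]
        have e : ρ u = 1 + N := by rw [hN]; simp
        rw [e, add_mul, one_mul, mul_add, mul_one, Matrix.smul_mul, hNN, smul_zero, add_zero]
        push_cast
        rw [add_smul, one_smul]; abel
    have hNH : ∀ g, (N * ρ g).trace = 0 := by
      intro g
      by_contra hc
      have hb : ∀ m : ℕ, |(ρ g).trace + (m : ℝ) * (N * ρ g).trace| ≤ 2 := by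
        intro m
        have := htr (u ^ m * g)
        rw [map_mul, hpow m, add_mul, one_mul, Matrix.smul_mul, Matrix.trace_add,
          Matrix.trace_smul, smul_eq_mul] at this
        exact this
      have hpos : 0 < |(N * ρ g).trace| := abs_pos.2 hc
      obtain ⟨m, hm⟩ := exists_nat_gt (4 / |(N * ρ g).trace|)
      have h1 : 4 < m * |(N * ρ g).trace| := by
        rwa [div_lt_iff₀ hpos] at hm
      have h2 := hb m
      have h3 := htr g
      have h4 : |(m : ℝ) * (N * ρ g).trace| ≤
          |(ρ g).trace + (m : ℝ) * (N * ρ g).trace| + |(ρ g).trace| := by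
        have := abs_sub ((ρ g).trace + (m : ℝ) * (N * ρ g).trace) ((ρ g).trace)
        simpa using this
      rw [abs_mul, abs_of_nonneg (Nat.cast_nonneg m : (0 : ℝ) ≤ (m : ℝ))] at h4
      linarith
    by_cases hy : N 0 1 = 0
    · refine ⟨![0, 1], ?_, ?_⟩
      · intro h0
        have := congrFun h0 1
        simp at this
      · intro g
        have h1 := hNH g
        have h00 : N 0 0 = 0 := by
          have h2 := hNd
          rw [Matrix.det_fin_two] at h2
          have h3 := hNt
          rw [Matrix.trace_fin_two] at h3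
          have h4 : N 1 1 = - N 0 0 := by linarith
          rw [h4, hy] at h2
          have h5 : (N 0 0) * (N 0 0) = 0 := by linarith
          exact mul_self_eq_zero.1 h5
        have h11 : N 1 1 = 0 := by
          have h3 := hNt
          rw [Matrix.trace_fin_two] at h3
          linarith
        have h10 : N 1 0 ≠ 0 := by
          intro h10
          apply hu1
          have : N = 0 := by
            ext i j
            fin_cases i <;> fin_cases j
            · exact h00
            · exact hy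
            · exact h10
            · exact h11
          rw [hN] at this
          exact sub_eq_zero.1 this
        rw [Matrix.trace_fin_two] at h1
        simp only [Matrix.mul_apply, Fin.sum_univ_two] at h1
        rw [h00, hy, h11] at h1
        have h6 : N 1 0 * ρ g 0 1 = 0 := by linarith
        have h7 : ρ g 0 1 = 0 := (mul_eq_zero.1 h6).resolve_left h10
        simp [Matrix.mulVec, dotProduct, Fin.sum_univ_two, h7]
    · refine ⟨![N 0 1, - N 0 0], ?_, ?_⟩
      · intro h0
        have := congrFun h0 0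
        simp at this
        exact hy this
      · intro g
        exact matB_line N (ρ g) hNt hNd (hNH g) hy
  · right
    push Not at hu
    intro g g'
    have hC : 0 ≤ (ρ g * ρ g' - ρ g' * ρ g).det := by
      have h1 : ρ (g * g' * g⁻¹ * g'⁻¹) * (ρ g' * ρ g) = ρ g * ρ g' := by
        rw [← map_mul, ← map_mul, ← map_mul]
        congr 1
        group
      have h2 : (ρ (g * g' * g⁻¹ * g'⁻¹) - 1) * (ρ g' * ρ g) = ρ g * ρ g' - ρ g' * ρ g := by
        rw [sub_mul, one_mul, h1]
      rw [← h2, Matrix.det_mul, Matrix.det_mul, hdet, hdet, mul_one, mul_one,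
        matB_det_sub _ (hdet _)]
      have := (abs_le.1 (htr (g * g' * g⁻¹ * g'⁻¹))).2
      linarith
    by_cases h2 : (ρ g).trace = 2
    · rw [hu g h2, one_mul, mul_one]
    by_cases h2' : (ρ g).trace = -2
    · have hch := matB_ch (ρ g) (hdet g)
      have h3 : (ρ (g * g)).trace = 2 := by
        rw [map_mul, hch, Matrix.trace_sub, Matrix.trace_smul, h2', Matrix.trace_one]
        norm_num
      have h4 := hu _ h3
      rw [map_mul, hch, h2'] at h4
      have h5 : ρ g = -1 := by
        have h6 : (-2 : ℝ) • ρ g = 2 • (1 : Matrix (Fin 2) (Fin 2) ℝ) := by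
          rw [two_smul]
          exact sub_eq_iff_eq_add.1 h4
        have h7 : (-2 : ℝ) • ρ g = (-2 : ℝ) • (-1 : Matrix (Fin 2) (Fin 2) ℝ) := by
          rw [h6]
          rw [smul_neg, neg_smul, neg_neg, two_smul, two_smul]
        exact smul_right_injective _ (by norm_num : (-2 : ℝ) ≠ 0) h7
      rw [h5]; simp
    have hlt : (ρ g).trace ^ 2 < 4 := by
      have h3 := abs_le.1 (htr g)
      have h4 : (ρ g).trace < 2 := lt_of_le_of_ne h3.2 h2
      have h5 : -2 < (ρ g).trace := lt_of_le_of_ne h3.1 (Ne.symm h2')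
      nlinarith
    have hd := hdet g
    rw [Matrix.det_fin_two] at hd hC
    rw [Matrix.trace_fin_two] at hlt
    obtain ⟨a, ha⟩ : ∃ a, a = ρ g 0 0 := ⟨_, rfl⟩
    obtain ⟨b, hb⟩ : ∃ a, a = ρ g 0 1 := ⟨_, rfl⟩
    obtain ⟨c, hc⟩ : ∃ a, a = ρ g 1 0 := ⟨_, rfl⟩
    obtain ⟨d, hd'⟩ : ∃ a, a = ρ g 1 1 := ⟨_, rfl⟩
    obtain ⟨a', ha'⟩ : ∃ a, a = ρ g' 0 0 := ⟨_, rfl⟩
    obtain ⟨b', hb'⟩ : ∃ a, a = ρ g' 0 1 := ⟨_, rfl⟩
    obtain ⟨c', hc'⟩ : ∃ a, a = ρ g' 1 0 := ⟨_, rfl⟩
    obtain ⟨d'', hd''⟩ : ∃ a, a = ρ g' 1 1 := ⟨_, rfl⟩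
    simp only [Matrix.sub_apply, Matrix.mul_apply, Fin.sum_univ_two] at hC
    simp only [← ha, ← hb, ← hc, ← hd', ← ha', ← hb', ← hc', ← hd''] at hC hd hlt
    obtain ⟨al, hal⟩ : ∃ al, al = b * c' - b' * c := ⟨_, rfl⟩
    obtain ⟨be, hbe⟩ : ∃ al, al = (a - d) * b' - (a' - d'') * b := ⟨_, rfl⟩
    obtain ⟨ga, hga⟩ : ∃ al, al = (a' - d'') * c - (a - d) * c' := ⟨_, rfl⟩
    have hrel : (a - d) * al + b * ga + c * be = 0 := by
      rw [hal, hbe, hga]; ring
    have hC' : 0 ≤ - al ^ 2 - be * ga := by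
      have : - al ^ 2 - be * ga = (a * a' + b * c' - (a' * a + b' * c)) *
          (c * b' + d * d'' - (c' * b + d'' * d)) -
          (a * b' + b * d'' - (a' * b + b' * d)) * (c * a' + d * c' - (c' * a + d'' * c)) := by
        rw [hal, hbe, hga]; ring
      rw [this]; exact hC
    have hc0 : c ≠ 0 := by
      intro hc0
      rw [hc0] at hd
      nlinarith [sq_nonneg (a - d)]
    have hkey : c ^ 2 * (- al ^ 2 - be * ga) =
        -(c * al - (a - d) * ga / 2) ^ 2 + ((a + d) ^ 2 / 4 - 1) * ga ^ 2 := by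
      have h3 : c * be = -((a - d) * al + b * ga) := by linarith
      have h4 : c ^ 2 * (- al ^ 2 - be * ga) = - c ^ 2 * al ^ 2 - c * (c * be) * ga := by ring
      rw [h4, h3]
      linear_combination (-ga ^ 2) * hd
    have hnn : 0 ≤ c ^ 2 * (- al ^ 2 - be * ga) := mul_nonneg (sq_nonneg c) hC'
    have hneg : ((a + d) ^ 2 / 4 - 1) < 0 := by linarith
    have hga0 : ga = 0 := by
      by_contra hga0
      have h5 : 0 < ga ^ 2 := by positivity
      have h6 : ((a + d) ^ 2 / 4 - 1) * ga ^ 2 < 0 := mul_neg_of_neg_of_pos hneg h5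
      nlinarith [sq_nonneg (c * al - (a - d) * ga / 2)]
    have hal0 : al = 0 := by
      rw [hga0] at hkey hnn
      have h7 : (c * al) ^ 2 ≤ 0 := by nlinarith
      have h8 : c * al = 0 := by
        have := sq_nonneg (c * al)
        exact pow_eq_zero_iff (two_ne_zero) |>.1 (le_antisymm h7 this)
      exact (mul_eq_zero.1 h8).resolve_left hc0
    have hbe0 : be = 0 := by
      rw [hga0, hal0] at hrel
      have h8 : c * be = 0 := by linarith
      exact (mul_eq_zero.1 h8).resolve_left hc0
    rw [hal0] at hal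
    rw [hbe0] at hbe
    rw [hga0] at hga
    ext i j
    fin_cases i <;> fin_cases j <;>
      simp only [Matrix.mul_apply, Fin.sum_univ_two, Fin.zero_eta, Fin.mk_one] <;>
      simp only [← ha, ← hb, ← hc, ← hd', ← ha', ← hb', ← hc', ← hd''] <;>
      linarith

end Pool.Agent.H71.AU
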