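import Mathlib
import Pool.Agent.H71.AU.Defs

/-! AU-2: a group of two by two matrices with a common eigenvector is solvable of length two. -/

set_option autoImplicit false

namespace Pool.Agent.H71.AU

/-- If `P` is invertible and all `P⁻¹ ρ P` are upper triangular then the second derived group
acts trivially. -/
theorem tri_upper {G : Type*} [Group G] (σ : G →* Matrix (Fin 2) (Fin 2) ℝ)
    (h : ∀ g, σ g 1 0 = 0) : ∀ g ∈ derivedSeries G 2, σ g = 1 := by
  have mul00 : ∀ g g', σ (g * g') 0 0 = σ g 0 0 * σ g' 0 0 := by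
    intro g g'
    rw [map_mul, Matrix.mul_apply, Fin.sum_univ_two, h g']
    ring
  have mul11 : ∀ g g', σ (g * g') 1 1 = σ g 1 1 * σ g' 1 1 := by
    intro g g'
    rw [map_mul, Matrix.mul_apply, Fin.sum_univ_two, h g]
    ring
  have one00 : σ 1 0 0 = 1 := by simp
  have one11 : σ 1 1 1 = 1 := by simp
  let f0 : G →* ℝ := ⟨⟨fun g => σ g 0 0, one00⟩, mul00⟩
  let f1 : G →* ℝ := ⟨⟨fun g => σ g 1 1, one11⟩, mul11⟩
  have c0 : ∀ g ∈ derivedSeries G 1, σ g 0 0 = 1 := by
    intro g hg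
    have hle : derivedSeries G 1 ≤ f0.toHomUnits.ker := by
      rw [derivedSeries_one]
      exact Abelianization.commutator_subset_ker f0.toHomUnits
    have := hle hg
    rw [MonoidHom.mem_ker] at this
    have h2 := congrArg Units.val this
    exact h2
  have c1 : ∀ g ∈ derivedSeries G 1, σ g 1 1 = 1 := by
    intro g hg
    have hle : derivedSeries G 1 ≤ f1.toHomUnits.ker := by
      rw [derivedSeries_one]
      exact Abelianization.commutator_subset_ker f1.toHomUnits
    have := hle hg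
    rw [MonoidHom.mem_ker] at this
    have h2 := congrArg Units.val this
    exact h2
  have comm : ∀ g ∈ derivedSeries G 1, ∀ g' ∈ derivedSeries G 1, σ (g * g') = σ (g' * g) := by
    intro g hg g' hg'
    rw [map_mul, map_mul]
    ext i j
    fin_cases i <;> fin_cases j <;>
      simp [Matrix.mul_apply, Fin.sum_univ_two, h, c0 g hg, c0 g' hg', c1 g hg, c1 g' hg',
        add_comm]
  intro g hg
  have hle : derivedSeries G 2 ≤ σ.toHomUnits.ker := by
    show derivedSeries G (1 + 1) ≤ _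
    rw [derivedSeries_succ, Subgroup.commutator_le]
    intro a ha b hb
    rw [MonoidHom.mem_ker]
    have h3 : σ.toHomUnits (a * b) = σ.toHomUnits (b * a) := Units.ext (comm a ha b hb)
    rw [commutatorElement_def, map_mul, map_mul, h3, map_mul, map_inv, map_inv]
    group
  have h4 := hle hg
  rw [MonoidHom.mem_ker] at h4
  exact congrArg Units.val h4

theorem tri {G : Type*} [Group G] (ρ : G →* Matrix (Fin 2) (Fin 2) ℝ) (p : Fin 2 → ℝ)
    (hp : p ≠ 0)
    (h : ∀ g, (ρ g).mulVec p 0 * p 1 - (ρ g).mulVec p 1 * p 0 = 0) :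
    ∀ g ∈ derivedSeries G 2, ρ g = 1 := by
  have hd : (p 0) ^ 2 + (p 1) ^ 2 ≠ 0 := by
    intro h0
    apply hp
    have h1 : p 0 = 0 := by nlinarith [sq_nonneg (p 0), sq_nonneg (p 1)]
    have h2 : p 1 = 0 := by nlinarith [sq_nonneg (p 0), sq_nonneg (p 1)]
    ext i
    fin_cases i
    · exact h1
    · exact h2
  obtain ⟨P, hP⟩ : ∃ P : Matrix (Fin 2) (Fin 2) ℝ, P = !![p 0, -p 1; p 1, p 0] := ⟨_, rfl⟩
  obtain ⟨P', hP'⟩ : ∃ P' : Matrix (Fin 2) (Fin 2) ℝ,
      P' = ((p 0) ^ 2 + (p 1) ^ 2)⁻¹ • !![p 0, p 1; -p 1, p 0] := ⟨_, rfl⟩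
  have e1 : P * P' = 1 := by
    rw [hP, hP']
    ext i j
    fin_cases i <;> fin_cases j <;>
      simp [Matrix.mul_apply, Fin.sum_univ_two] <;> field_simp <;> ring
  have e2 : P' * P = 1 := by
    rw [hP, hP']
    ext i j
    fin_cases i <;> fin_cases j <;>
      simp [Matrix.mul_apply, Fin.sum_univ_two] <;> field_simp <;> ring
  let σ : G →* Matrix (Fin 2) (Fin 2) ℝ :=
    { toFun := fun g => P' * ρ g * P
      map_one' := by rw [map_one, mul_one, e2]
      map_mul' := by
        intro a b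
        rw [map_mul]
        calc P' * (ρ a * ρ b) * P = P' * ρ a * 1 * ρ b * P := by
              rw [mul_one]; simp only [mul_assoc]
          _ = P' * ρ a * (P * P') * ρ b * P := by rw [e1]
          _ = P' * ρ a * P * (P' * ρ b * P) := by simp only [mul_assoc] }
  have hσ : ∀ g, σ g 1 0 = 0 := by
    intro g
    have h0 := h g
    show (P' * ρ g * P) 1 0 = 0
    simp only [Matrix.mulVec, dotProduct, Fin.sum_univ_two] at h0
    rw [hP, hP']
    simp only [Matrix.mul_apply, Fin.sum_univ_two, Matrix.smul_apply, smul_eq_mul,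
      Matrix.of_apply, Matrix.cons_val', Matrix.cons_val_zero, Matrix.cons_val_one,
      Matrix.cons_val_fin_one]
    have : (((p 0) ^ 2 + (p 1) ^ 2)⁻¹ * -p 1 * ρ g 0 0 + ((p 0) ^ 2 + (p 1) ^ 2)⁻¹ * p 0 * ρ g 1 0) * p 0 +
        (((p 0) ^ 2 + (p 1) ^ 2)⁻¹ * -p 1 * ρ g 0 1 + ((p 0) ^ 2 + (p 1) ^ 2)⁻¹ * p 0 * ρ g 1 1) * p 1 =
        -((p 0) ^ 2 + (p 1) ^ 2)⁻¹ * ((ρ g 0 0 * p 0 + ρ g 0 1 * p 1) * p 1 -
          (ρ g 1 0 * p 0 + ρ g 1 1 * p 1) * p 0) := by ring
    rw [this, h0, mul_zero]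
  intro g hg
  have h5 : P' * ρ g * P = 1 := tri_upper σ hσ g hg
  calc ρ g = (P * P') * ρ g * (P * P') := by rw [e1, one_mul, mul_one]
    _ = P * (P' * ρ g * P) * P' := by simp only [mul_assoc]
    _ = 1 := by rw [h5, mul_one, e1]

end Pool.Agent.H71.AU
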