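import Mathlib
import Pool.Agent.H71.AU.Defs
import Pool.Agent.H71.AU.Tri
import Pool.Agent.H71.AU.MatB

set_option autoImplicit false

namespace Pool.Agent.H71.AU

open Module

/-- the ambient derived series is the image of the intrinsic one -/
theorem twoQ_ds_eq {G : Type*} [Group G] (H : Subgroup G) (n : ℕ) :
    ds H n = (derivedSeries (↥H) n).map H.subtype := by
  induction n with
  | zero =>
    rw [derivedSeries_zero, ← MonoidHom.range_eq_map, Subgroup.range_subtype]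
    rfl
  | succ n ih =>
    rw [derivedSeries_succ, Subgroup.map_commutator, ← ih]
    rfl

theorem twoQ_ds_shift {G : Type*} [Group G] (n : ℕ) :
    ds (derivedSeries G 1) n = derivedSeries G (n + 1) := by
  induction n with
  | zero => rfl
  | succ n ih =>
    change ⁅ds (derivedSeries G 1) n, ds (derivedSeries G 1) n⁆ =
      ⁅derivedSeries G (n + 1), derivedSeries G (n + 1)⁆
    rw [ih]

theorem twoD {G : Type*} [Group G] (ρ : G →* Matrix (Fin 2) (Fin 2) ℝ)
    (h : ∀ g, (ρ g - 1).det = 0 ∨ ∃ k : ℕ, 0 < k ∧ (ρ g) ^ k = 1) :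
    ∃ e : ℕ, ∀ g ∈ derivedSeries G e, ρ g = 1 := by
  have hdet : ∀ g ∈ derivedSeries G 1, (ρ g).det = 1 := by
    intro g hg
    have h1 : derivedSeries G 1 = commutator G := by
      rw [derivedSeries_succ, derivedSeries_zero, commutator_def]
    have h2 := Abelianization.commutator_subset_ker
      (MonoidHom.toHomUnits (Matrix.detMonoidHom.comp ρ))
    rw [h1] at hg
    have h3 := h2 hg
    rw [MonoidHom.mem_ker] at h3
    have h4 := congrArg Units.val h3
    rw [MonoidHom.coe_toHomUnits] at h4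
    simpa using h4
  set σ : (↥(derivedSeries G 1)) →* Matrix (Fin 2) (Fin 2) ℝ :=
    ρ.comp (derivedSeries G 1).subtype with hσ
  have hfin : ∀ n : ℕ, (∀ g ∈ derivedSeries (↥(derivedSeries G 1)) n, σ g = 1) →
      ∀ g ∈ derivedSeries G (n + 1), ρ g = 1 := by
    intro n hn g hg
    rw [← twoQ_ds_shift, twoQ_ds_eq] at hg
    obtain ⟨g', hg', rfl⟩ := hg
    exact hn g' hg'
  rcases matB σ (fun g => hdet g.1 g.2) (fun g => h g.1) with ⟨p, hp, hpe⟩ | hcomm
  · exact ⟨3, hfin 2 (tri σ p hp hpe)⟩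
  · refine ⟨2, hfin 1 ?_⟩
    intro g hg
    have hle : ⁅(⊤ : Subgroup (↥(derivedSeries G 1))), (⊤ : Subgroup (↥(derivedSeries G 1)))⁆ ≤
        (MonoidHom.toHomUnits σ).ker := by
      rw [Subgroup.commutator_le]
      intro a _ b _
      rw [MonoidHom.mem_ker, map_commutatorElement, commutatorElement_eq_one_iff_mul_comm]
      ext1
      rw [Units.val_mul, Units.val_mul, MonoidHom.coe_toHomUnits, MonoidHom.coe_toHomUnits]
      exact hcomm a b
    have h3 := hle hg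
    rw [MonoidHom.mem_ker] at h3
    have h4 := congrArg Units.val h3
    rw [MonoidHom.coe_toHomUnits] at h4
    simpa using h4

theorem twoQ {E : Type*} [NormedAddCommGroup E] [NormedSpace ℝ E] [FiniteDimensional ℝ E]
    {W U : Submodule ℝ E} (hU : U ≤ W) (hd : finrank ℝ W = finrank ℝ U + 2)
    (G : Subgroup (E →L[ℝ] E)ˣ)
    (hGW : ∀ g ∈ G, ∀ w ∈ W, (g : E →L[ℝ] E) w ∈ W)
    (hGU : ∀ g ∈ G, ∀ w ∈ U, (g : E →L[ℝ] E) w ∈ U)
    (hyp : ∀ g ∈ G, (∃ w ∈ W, w ∉ U ∧ (g : E →L[ℝ] E) w - w ∈ U) ∨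
      ∃ k : ℕ, 0 < k ∧ ∀ w ∈ W, ((g ^ k : (E →L[ℝ] E)ˣ) : E →L[ℝ] E) w - w ∈ U) :
    ∃ e : ℕ, ∀ g ∈ ds G e, ∀ w ∈ W, (g : E →L[ℝ] E) w - w ∈ U := by
  set N : Submodule ℝ (↥W) := U.comap W.subtype with hN
  have hdim : finrank ℝ (↥W ⧸ N) = 2 := by
    have h1 := Submodule.finrank_quotient_add_finrank N
    have h2 : finrank ℝ N = finrank ℝ U :=
      LinearEquiv.finrank_eq (Submodule.comapSubtypeEquivOfLe hU)
    omega
  -- the action on `W`
  let aW : (↥G) → (↥W →ₗ[ℝ] ↥W) := fun g =>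
    (((g : (E →L[ℝ] E)ˣ) : E →L[ℝ] E) : E →ₗ[ℝ] E).restrict (fun w hw => hGW g.1 g.2 w hw)
  have haW : ∀ (g : ↥G) (w : ↥W), ((aW g w : ↥W) : E) = ((g : (E →L[ℝ] E)ˣ) : E →L[ℝ] E) w :=
    fun g w => rfl
  have hNle : ∀ g : ↥G, N ≤ N.comap (aW g) := by
    intro g w hw
    exact hGU g.1 g.2 _ hw
  let aQ : (↥G) →* Module.End ℝ (↥W ⧸ N) :=
    { toFun := fun g => Submodule.mapQ N N (aW g) (hNle g)
      map_one' := by
        ext w
        rfl
      map_mul' := by
        intro g g'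
        ext w
        rfl }
  have haQ : ∀ (g : ↥G) (w : ↥W), aQ g (Submodule.Quotient.mk w) =
      Submodule.Quotient.mk (aW g w) := fun g w => rfl
  let b : Basis (Fin 2) ℝ (↥W ⧸ N) := Module.finBasisOfFinrankEq ℝ (↥W ⧸ N) hdim
  let ρ : (↥G) →* Matrix (Fin 2) (Fin 2) ℝ :=
    ((LinearMap.toMatrixAlgEquiv b : Module.End ℝ (↥W ⧸ N) ≃ₐ[ℝ] _) : _ →* _).comp aQ
  have hρ : ∀ g, ρ g = LinearMap.toMatrixAlgEquiv b (aQ g) := fun g => rfl
  have hyp2 : ∀ g, (ρ g - 1).det = 0 ∨ ∃ k : ℕ, 0 < k ∧ (ρ g) ^ k = 1 := by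
    intro g
    rcases hyp g.1 g.2 with ⟨w, hwW, hwU, hw⟩ | ⟨k, hk, hw⟩
    · left
      rw [← Matrix.exists_mulVec_eq_zero_iff]
      refine ⟨b.repr (Submodule.Quotient.mk ⟨w, hwW⟩), ?_, ?_⟩
      · intro hz
        have h1 : b.repr (Submodule.Quotient.mk (p := N) ⟨w, hwW⟩) = 0 := by
          ext i
          exact congrFun hz i
        have h2 : (Submodule.Quotient.mk ⟨w, hwW⟩ : ↥W ⧸ N) = 0 := by
          simpa using h1
        rw [Submodule.Quotient.mk_eq_zero] at h2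
        exact hwU h2
      · have h1 : ρ g - 1 = LinearMap.toMatrixAlgEquiv b (aQ g - 1) := by
          rw [map_sub, map_one, hρ]
        rw [h1]
        change (LinearMap.toMatrix b b (aQ g - 1)).mulVec _ = 0
        rw [LinearMap.toMatrix_mulVec_repr]
        have h2 : (aQ g - 1) (Submodule.Quotient.mk ⟨w, hwW⟩) = 0 := by
          rw [LinearMap.sub_apply, haQ, Module.End.one_apply, ← Submodule.Quotient.mk_sub,
            Submodule.Quotient.mk_eq_zero]
          exact hw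
        rw [h2]
        simp
    · right
      refine ⟨k, hk, ?_⟩
      have h1 : aQ (g ^ k) = 1 := by
        ext w
        change (Submodule.Quotient.mk (aW (g ^ k) w) : ↥W ⧸ N) = Submodule.Quotient.mk w
        rw [Submodule.Quotient.eq]
        exact hw w.1 w.2
      rw [← map_pow, hρ, h1, map_one]
  obtain ⟨e, he⟩ := twoD ρ hyp2
  refine ⟨e, ?_⟩
  intro g hg w hw
  rw [twoQ_ds_eq] at hg
  obtain ⟨g', hg', rfl⟩ := hg
  have h1 := he g' hg'
  rw [hρ] at h1
  have h2 : aQ g' = 1 := by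
    apply (LinearMap.toMatrixAlgEquiv b).injective
    rw [h1, map_one]
  have h3 := congrArg (fun f => f (Submodule.Quotient.mk (p := N) ⟨w, hw⟩)) h2
  change (Submodule.Quotient.mk (aW g' ⟨w, hw⟩) : ↥W ⧸ N) = Submodule.Quotient.mk ⟨w, hw⟩ at h3
  rw [Submodule.Quotient.eq] at h3
  exact h3

end Pool.Agent.H71.AU
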