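import Mathlib
import Pool.Agent.H71.AU.Defs
import Pool.Agent.H71.AU.OrbA
import Pool.Agent.H71.AU.OrbB
import Pool.Agent.H71.AU.TwoQ

/-! Orbit lemmas, part C: the derived series of a group normalising `exp h` preserves the
`exp h` orbits on `x₀ + W` when the codimension of the orbits is at most two. -/

set_option autoImplicit false

namespace Pool.Agent.H71.AU

open NormedSpace Module

open scoped commutatorElement

variable {E : Type*} [NormedAddCommGroup E] [NormedSpace ℝ E] [CompleteSpace E]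
  [FiniteDimensional ℝ E]

omit [CompleteSpace E] in
theorem mem_of_finrank_succ {W U : Submodule ℝ E} (hU : U ≤ W)
    (hd : finrank ℝ W = finrank ℝ U + 1) :
    ∃ w₁ ∈ W, ∀ w ∈ W, ∃ c : ℝ, ∃ u ∈ U, w = c • w₁ + u := by
  have hne : ¬ W ≤ U := by
    intro hle
    have := Submodule.finrank_mono hle
    omega
  obtain ⟨w₁, hw₁, hw₁U⟩ := Set.not_subset.1 hne
  refine ⟨w₁, hw₁, ?_⟩
  have hle : U ⊔ Submodule.span ℝ {w₁} ≤ W :=
    sup_le hU (Submodule.span_le.2 (by simpa using hw₁))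
  have hlt : U < U ⊔ Submodule.span ℝ {w₁} := by
    refine lt_of_le_of_ne le_sup_left fun heq => hw₁U ?_
    change w₁ ∈ U
    rw [heq]
    exact Submodule.mem_sup_right (Submodule.mem_span_singleton_self w₁)
  have h2 := Submodule.finrank_lt_finrank_of_lt hlt
  have heq := Submodule.eq_of_le_of_finrank_le hle (by omega)
  intro w hw
  rw [← heq] at hw
  obtain ⟨u, hu, v, hv, rfl⟩ := Submodule.mem_sup.1 hw
  obtain ⟨c, rfl⟩ := Submodule.mem_span_singleton.1 hv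
  exact ⟨c, u, hu, add_comm _ _⟩

theorem ds_one_triv {W U : Submodule ℝ E} (hU : U ≤ W) (hd : finrank ℝ W = finrank ℝ U + 1)
    {G : Subgroup (E →L[ℝ] E)ˣ} (hGW : ∀ g ∈ G, ∀ w ∈ W, (g : E →L[ℝ] E) w ∈ W)
    (hGU : ∀ g ∈ G, ∀ w ∈ U, (g : E →L[ℝ] E) w ∈ U) :
    ∀ g ∈ ds G 1, ∀ w ∈ W, (g : E →L[ℝ] E) w - w ∈ U := by
  have hle : ds G 1 ≤ trv G U hGU (W : Set E) := by
    rw [ds_succ]
    apply Subgroup.commutator_le.2
    intro g hg g' hg'
    refine ⟨?_, ?_⟩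
    · exact G.mul_mem (G.mul_mem (G.mul_mem hg hg') (G.inv_mem hg)) (G.inv_mem hg')
    intro y hy
    obtain ⟨w₁, hw₁, hW⟩ := mem_of_finrank_succ hU hd
    obtain ⟨c, u, hu, hcu⟩ := hW _ (hGW g hg w₁ hw₁)
    obtain ⟨c', u', hu', hcu'⟩ := hW _ (hGW g' hg' w₁ hw₁)
    set v : E := ((g⁻¹ : (E →L[ℝ] E)ˣ) : E →L[ℝ] E) (((g'⁻¹ : (E →L[ℝ] E)ˣ) : E →L[ℝ] E) y)
      with hv
    have hvW : v ∈ W := hGW _ (G.inv_mem hg) _ (hGW _ (G.inv_mem hg') _ hy)
    apply comm_apply_mem g g' y v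
    · rw [hv, val_inv_apply, val_inv_apply]
    obtain ⟨a, z, hz, hvz⟩ := hW v hvW
    rw [hvz]
    simp only [map_add, map_smul, hcu, hcu']
    have e1 := hGU g hg u' hu'
    have e2 := hGU g' hg' u hu
    have e3 := hGU g hg _ (hGU g' hg' z hz)
    have e4 := hGU g' hg' _ (hGU g hg z hz)
    have : a • (c' • (c • w₁ + u) + (g : E →L[ℝ] E) u') + (g : E →L[ℝ] E) ((g' : E →L[ℝ] E) z) -
        (a • (c • (c' • w₁ + u') + (g' : E →L[ℝ] E) u) + (g' : E →L[ℝ] E) ((g : E →L[ℝ] E) z)) =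
        a • (c' • u + (g : E →L[ℝ] E) u' - c • u' - (g' : E →L[ℝ] E) u) +
        ((g : E →L[ℝ] E) ((g' : E →L[ℝ] E) z) - (g' : E →L[ℝ] E) ((g : E →L[ℝ] E) z)) := by
      module
    rw [this]
    refine U.add_mem (U.smul_mem _ (U.sub_mem (U.sub_mem (U.add_mem ?_ e1) ?_) e2)) ?_
    · exact U.smul_mem _ hu
    · exact U.smul_mem _ hu'
    · exact U.sub_mem e3 e4
  intro g hg w hw
  exact (hle hg).2 w hw

/-- The affine subspace `x₀ + W` as a set. -/
def aff (x₀ : E) (W : Submodule ℝ E) : Set E := {y | ∃ w ∈ W, y = x₀ + w}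

theorem comm_triv {W U : Submodule ℝ E} (hU : U ≤ W) {x₀ : E}
    {G K : Subgroup (E →L[ℝ] E)ˣ} (hGW : ∀ g ∈ G, ∀ w ∈ W, (g : E →L[ℝ] E) w ∈ W)
    (hGx : ∀ g ∈ G, (g : E →L[ℝ] E) x₀ - x₀ ∈ W)
    (hGU : ∀ g ∈ G, ∀ w ∈ U, (g : E →L[ℝ] E) w ∈ U) (hKG : K ≤ G)
    (hK : ∀ g ∈ K, ∀ w ∈ W, (g : E →L[ℝ] E) w - w ∈ U) :
    ⁅K, K⁆ ≤ trv G U hGU (aff x₀ W) := by
  have haff : ∀ g ∈ G, ∀ y ∈ aff x₀ W, (g : E →L[ℝ] E) y ∈ aff x₀ W := by
    rintro g hg y ⟨w, hw, rfl⟩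
    refine ⟨((g : E →L[ℝ] E) x₀ - x₀) + (g : E →L[ℝ] E) w, W.add_mem (hGx g hg) (hGW g hg w hw), ?_⟩
    rw [map_add]
    abel
  have hsub : ∀ g ∈ G, ∀ y ∈ aff x₀ W, (g : E →L[ℝ] E) y - y ∈ W := by
    rintro g hg y ⟨w, hw, rfl⟩
    have : (g : E →L[ℝ] E) (x₀ + w) - (x₀ + w) =
        ((g : E →L[ℝ] E) x₀ - x₀) + ((g : E →L[ℝ] E) w - w) := by
      rw [map_add]
      abel
    rw [this]
    exact W.add_mem (hGx g hg) (W.sub_mem (hGW g hg w hw) hw)
  apply Subgroup.commutator_le.2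
  intro g hg g' hg'
  have hgG := hKG hg
  have hgG' := hKG hg'
  refine ⟨G.mul_mem (G.mul_mem (G.mul_mem hgG hgG') (G.inv_mem hgG)) (G.inv_mem hgG'), ?_⟩
  intro y hy
  set v : E := ((g⁻¹ : (E →L[ℝ] E)ˣ) : E →L[ℝ] E) (((g'⁻¹ : (E →L[ℝ] E)ˣ) : E →L[ℝ] E) y)
    with hv
  have hvA : v ∈ aff x₀ W := haff _ (G.inv_mem hgG) _ (haff _ (G.inv_mem hgG') _ hy)
  apply comm_apply_mem g g' y v
  · rw [hv, val_inv_apply, val_inv_apply]
  have ha := hsub g' hgG' v hvA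
  have hb := hsub g hgG v hvA
  have e1 := hK g hg _ ha
  have e2 := hK g' hg' _ hb
  have e3 := U.sub_mem e1 e2
  convert e3 using 1
  simp only [map_sub]
  abel

section Data

variable {W : Submodule ℝ E} {x₀ : E} {h : Submodule ℝ (E →L[ℝ] E)}

/-- The span of `x₀` and `W`. -/
def mm (x₀ : E) (W : Submodule ℝ E) : Submodule ℝ E := Submodule.span ℝ {x₀} ⊔ W

theorem mem_mm {x₀ : E} {W : Submodule ℝ E} {y : E} :
    y ∈ mm x₀ W ↔ ∃ c : ℝ, ∃ w ∈ W, y = c • x₀ + w := by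
  unfold mm
  rw [Submodule.mem_sup]
  constructor
  · rintro ⟨a, ha, w, hw, rfl⟩
    obtain ⟨c, rfl⟩ := Submodule.mem_span_singleton.1 ha
    exact ⟨c, w, hw, rfl⟩
  · rintro ⟨c, w, hw, rfl⟩
    exact ⟨c • x₀, Submodule.smul_mem _ _ (Submodule.mem_span_singleton_self x₀), w, hw, rfl⟩

/-- The span of `X y`, `X ∈ h`, `y ∈ ℝ x₀ + W`. -/
def uu (h : Submodule ℝ (E →L[ℝ] E)) (x₀ : E) (W : Submodule ℝ E) : Submodule ℝ E :=
  hs h (mm x₀ W)

theorem Lin.uu_le (L : Lin W x₀ h) : uu h x₀ W ≤ W := by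
  apply hs_le
  intro X hX y hy
  obtain ⟨c, w, hw, rfl⟩ := mem_mm.1 hy
  rw [map_add, map_smul]
  exact W.add_mem (W.smul_mem c (L.hx X hX)) (L.hW X hX w hw)

theorem Lin.apply_mem_uu {X : E →L[ℝ] E} (hX : X ∈ h) {w : E} (hw : w ∈ W) :
    X (x₀ + w) ∈ uu h x₀ W :=
  hs_mem hX (mem_mm.2 ⟨1, w, hw, by rw [one_smul]⟩)

theorem Lin.toU (L : Lin W x₀ h) {w : E} (hw : w ∈ W) : Lin (uu h x₀ W) (x₀ + w) h where
  comm := L.comm
  nil := L.nil
  hx X hX := Lin.apply_mem_uu hX hw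
  hW X hX u hu := hs_mem hX (mem_mm.2 ⟨0, u, L.uu_le hu, by rw [zero_smul, zero_add]⟩)
  inj X hX u hu h0 := L.inj X hX (w + u) (W.add_mem hw (L.uu_le hu)) (by
    rw [← add_assoc]
    exact h0)

theorem Lin.finrank_le_uu (L : Lin W x₀ h) : finrank ℝ h ≤ finrank ℝ (uu h x₀ W) :=
  (L.toU W.zero_mem).finrank_le

theorem Lin.exp_sub_uu (L : Lin W x₀ h) {X : E →L[ℝ] E} (hX : X ∈ h) {w : E} (hw : w ∈ W) :
    exp X (x₀ + w) - (x₀ + w) ∈ uu h x₀ W := by
  have e1 := (L.toU hw).exp_x hX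
  have e2 := (L.toU hw).hs_le_W e1
  have e3 := Submodule.add_mem _ e2 (Lin.apply_mem_uu (x₀ := x₀) hX hw)
  rwa [sub_add_cancel] at e3

theorem Lin.rel_of_sub (L : Lin W x₀ h) (hd : finrank ℝ (uu h x₀ W) ≤ finrank ℝ h)
    {w : E} (hw : w ∈ W) {y : E} (hy : y - (x₀ + w) ∈ uu h x₀ W) : rel h (x₀ + w) y := by
  obtain ⟨X, hX, hXe⟩ := trans (L.toU hw) hd _ hy
  exact ⟨X, hX, by rw [hXe]; abel⟩

theorem Lin.b0 (L : Lin W x₀ h) (hUW : W ≤ uu h x₀ W) :
    ∀ w ∈ W, ∃ Y ∈ h, w - Y x₀ ∈ hs h W := by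
  intro w hw
  have := hUW hw
  have key : ∀ z ∈ uu h x₀ W, ∃ Y ∈ h, z - Y x₀ ∈ hs h W := by
    intro z hz
    unfold uu hs at hz
    induction hz using Submodule.span_induction with
    | mem z hz =>
      obtain ⟨X, hX, p, hp, rfl⟩ := hz
      obtain ⟨c, w, hw, rfl⟩ := mem_mm.1 hp
      refine ⟨c • X, h.smul_mem c hX, ?_⟩
      have : X (c • x₀ + w) - (c • X) x₀ = X w := by
        rw [map_add, map_smul]
        change c • X x₀ + X w - c • X x₀ = X w
        abel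
      rw [this]
      exact hs_mem hX hw
    | zero => exact ⟨0, h.zero_mem, by
        change (0 : E) - 0 ∈ hs h W
        rw [sub_zero]
        exact Submodule.zero_mem _⟩
    | add a b _ _ ha hb =>
      obtain ⟨Y, hY, hYa⟩ := ha
      obtain ⟨Z, hZ, hZb⟩ := hb
      refine ⟨Y + Z, h.add_mem hY hZ, ?_⟩
      have e := Submodule.add_mem _ hYa hZb
      convert e using 1
      rw [add_apply]
      abel
    | smul c a _ ha =>
      obtain ⟨Y, hY, hYa⟩ := ha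
      refine ⟨c • Y, h.smul_mem c hY, ?_⟩
      have e := Submodule.smul_mem _ c hYa
      convert e using 1
      rw [smul_sub]
      rfl
  exact key w this

variable {G : Subgroup (E →L[ℝ] E)ˣ}

theorem Dat.G_mm (D : Dat W x₀ h G) :
    ∀ g ∈ G, ∀ y ∈ mm x₀ W, (g : E →L[ℝ] E) y ∈ mm x₀ W := by
  intro g hg y hy
  obtain ⟨c, w, hw, rfl⟩ := mem_mm.1 hy
  refine mem_mm.2 ⟨c, c • ((g : E →L[ℝ] E) x₀ - x₀) + (g : E →L[ℝ] E) w,
    W.add_mem (W.smul_mem c (D.Gx g hg)) (D.GW g hg w hw), ?_⟩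
  rw [map_add, map_smul]
  module

theorem Dat.G_uu (D : Dat W x₀ h G) :
    ∀ g ∈ G, ∀ y ∈ uu h x₀ W, (g : E →L[ℝ] E) y ∈ uu h x₀ W :=
  D.G_hs D.G_mm

theorem Dat.bot (D : Dat (⊥ : Submodule ℝ E) x₀ h G) :
    ∀ g ∈ G, ∀ w ∈ (⊥ : Submodule ℝ E), rel h (x₀ + w) ((g : E →L[ℝ] E) (x₀ + w)) := by
  intro g hg w hw
  rw [Submodule.mem_bot] at hw
  subst hw
  have := D.Gx g hg
  rw [Submodule.mem_bot, sub_eq_zero] at this
  rw [add_zero, this]
  exact rel_refl h x₀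

theorem Dat.s1 (D : Dat W x₀ h G) (hd : finrank ℝ W ≤ finrank ℝ h + 1) :
    ∀ g ∈ ds G 2, ∀ w ∈ W, rel h (x₀ + w) ((g : E →L[ℝ] E) (x₀ + w)) := by
  obtain ⟨d, hdd⟩ : ∃ d, finrank ℝ W = d := ⟨_, rfl⟩
  induction d using Nat.strong_induction_on generalizing W h G with
  | _ d ih =>
    have hle := D.toLin.uu_le
    by_cases hUW : W ≤ uu h x₀ W
    · by_cases h0 : W = ⊥
      · subst h0
        intro g hg
        exact D.bot g (ds_le G 2 hg)
      have hlt := hs_lt D.comm D.nil D.hW h0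
      have hlt' := Submodule.finrank_lt_finrank_of_lt hlt
      have hfs := finrank_step D
      exact D.lift (D.toLin.b0 hUW) 2
        (ih _ (by omega) D.step (by omega) rfl)
    · have hlt : uu h x₀ W < W := lt_of_le_not_ge hle hUW
      have hlt' := Submodule.finrank_lt_finrank_of_lt hlt
      have hhU := D.toLin.finrank_le_uu
      have e1 : finrank ℝ W = finrank ℝ (uu h x₀ W) + 1 := by omega
      have t1 := ds_one_triv hle e1 D.GW D.G_uu
      have t2 := comm_triv (x₀ := x₀) (K := ds G 1) hle D.GW D.Gx D.G_uu (ds_le G 1) t1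
      intro g hg w hw
      apply D.toLin.rel_of_sub (by omega) hw
      exact (t2 hg).2 _ ⟨w, hw, rfl⟩

theorem Dat.s2 (D : Dat W x₀ h G) (hd : finrank ℝ W ≤ finrank ℝ h + 2)
    (FO : ∀ g ∈ G, ∀ w ∈ W, rel h (x₀ + w) ((g : E →L[ℝ] E) (x₀ + w)) →
      ∃ k : ℕ, 0 < k ∧ ∀ v ∈ W,
        rel h (x₀ + v) (((g ^ k : (E →L[ℝ] E)ˣ) : E →L[ℝ] E) (x₀ + v))) :
    ∃ e : ℕ, ∀ g ∈ ds G e, ∀ w ∈ W, rel h (x₀ + w) ((g : E →L[ℝ] E) (x₀ + w)) := by
  obtain ⟨d, hdd⟩ : ∃ d, finrank ℝ W = d := ⟨_, rfl⟩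
  induction d using Nat.strong_induction_on generalizing W h G with
  | _ d ih =>
    have hle := D.toLin.uu_le
    by_cases hUW : W ≤ uu h x₀ W
    · by_cases h0 : W = ⊥
      · subst h0
        refine ⟨0, ?_⟩
        intro g hg
        exact D.bot g (ds_le G 0 hg)
      have hlt := hs_lt D.comm D.nil D.hW h0
      have hlt' := Submodule.finrank_lt_finrank_of_lt hlt
      have hfs := finrank_step D
      obtain ⟨e, he⟩ := ih _ (by omega) D.step (by omega) (by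
        intro g hg w hw hr
        obtain ⟨k, hk, hk'⟩ := FO g ((mem_G1 D).1 hg).1 w (D.toLin.hs_le_W hw)
          (rel_mono (fun X hX => (mem_h1.1 hX).1) hr)
        refine ⟨k, hk, fun v hv => ?_⟩
        obtain ⟨X, hX, hXe⟩ := hk' v (D.toLin.hs_le_W hv)
        refine ⟨X, mem_h1.2 ⟨hX, ?_⟩, hXe⟩
        have hgk : g ^ k ∈ G1 D := (G1 D).pow_mem hg k
        -- g^k (x₀ + v) - (x₀ + v) ∈ W1
        have e1 := D.step.Gx _ hgk
        have e2 := D.step.GW _ hgk v hv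
        have e3 : exp X (x₀ + v) - (x₀ + v) ∈ hs h W := by
          rw [← hXe, map_add]
          have := Submodule.add_mem _ e1 (Submodule.sub_mem _ e2 hv)
          convert this using 1
          abel
        -- exp X x₀ - x₀ - X x₀ and exp X v - v in W1
        have e4 := D.toLin.exp_x hX
        have e5 := D.toLin.exp_w hX (D.toLin.hs_le_W hv)
        have e6 := Submodule.sub_mem _ (Submodule.sub_mem _ e3 e4) e5
        convert e6 using 1
        rw [map_add]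
        abel) rfl
      exact ⟨e, D.lift (D.toLin.b0 hUW) e he⟩
    · have hlt : uu h x₀ W < W := lt_of_le_not_ge hle hUW
      have hlt' := Submodule.finrank_lt_finrank_of_lt hlt
      have hhU := D.toLin.finrank_le_uu
      by_cases h1 : finrank ℝ W = finrank ℝ (uu h x₀ W) + 1
      · -- codimension one
        refine ⟨4, ?_⟩
        have t1 := ds_one_triv hle h1 D.GW D.G_uu
        have t2 := comm_triv (x₀ := x₀) (K := ds G 1) hle D.GW D.Gx D.G_uu (ds_le G 1) t1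
        intro g hg w hw
        have D' : Dat (uu h x₀ W) (x₀ + w) h (trv G (uu h x₀ W) D.G_uu (aff x₀ W)) :=
          { toLin := D.toLin.toU hw
            conj := fun g hg X hX => D.conj g hg.1 X hX
            GW := fun g hg u hu => D.G_uu g hg.1 u hu
            Gx := fun g hg => hg.2 _ ⟨w, hw, rfl⟩
            ex := fun X hX => ⟨D.ex X hX, by
              rintro y ⟨v, hv, rfl⟩
              exact D.toLin.exp_sub_uu hX hv⟩ }
        have hs := D'.s1 (by omega)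
        have hg' : g ∈ ds (trv G (uu h x₀ W) D.G_uu (aff x₀ W)) 2 := by
          have : ds G 4 = ds (ds G 2) 2 := (ds_ds G 2 2).symm
          rw [this] at hg
          exact ds_mono t2 2 hg
        have := hs g hg' 0 (Submodule.zero_mem _)
        rwa [add_zero] at this
      · -- codimension two
        have h2 : finrank ℝ W = finrank ℝ (uu h x₀ W) + 2 := by omega
        have h3 : finrank ℝ (uu h x₀ W) ≤ finrank ℝ h := by omega
        obtain ⟨e, he⟩ := twoQ hle h2 G D.GW D.G_uu (by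
          intro g hg
          by_cases hA : ∃ w ∈ W, w ∉ uu h x₀ W ∧ (g : E →L[ℝ] E) w - w ∈ uu h x₀ W
          · exact Or.inl hA
          right
          push Not at hA
          -- the map w ↦ g w - w from W to E/U
          obtain ⟨w, hw, hwe⟩ : ∃ w ∈ W,
              (g : E →L[ℝ] E) (x₀ + w) - (x₀ + w) ∈ uu h x₀ W := by
            set U := uu h x₀ W with hU
            let ψ : W →ₗ[ℝ] (E ⧸ U) := U.mkQ.comp W.subtype
            let φ : W →ₗ[ℝ] (E ⧸ U) :=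
              U.mkQ.comp ((((g : E →L[ℝ] E) : E →ₗ[ℝ] E) - LinearMap.id).comp W.subtype)
            have hφ : ∀ w : W, φ w = U.mkQ ((g : E →L[ℝ] E) w - w) := fun w => rfl
            have hψ : ∀ w : W, ψ w = U.mkQ (w : E) := fun w => rfl
            have r1 := LinearMap.finrank_range_add_finrank_ker φ
            have r2 := LinearMap.finrank_range_add_finrank_ker ψ
            have hker : LinearMap.ker φ ≤ LinearMap.ker ψ := by
              intro w hw
              rw [LinearMap.mem_ker, hφ] at hw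
              rw [LinearMap.mem_ker, hψ]
              have hw' : (g : E →L[ℝ] E) w - w ∈ U := (Submodule.Quotient.mk_eq_zero U).1 hw
              apply (Submodule.Quotient.mk_eq_zero U).2
              by_contra hwU
              exact hA w w.2 hwU hw'
            have hrange : LinearMap.range φ ≤ LinearMap.range ψ := by
              rintro _ ⟨w, rfl⟩
              exact ⟨⟨(g : E →L[ℝ] E) w - w, W.sub_mem (D.GW g hg w w.2) w.2⟩, rfl⟩
            have r3 := Submodule.finrank_mono hker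
            have heq := Submodule.eq_of_le_of_finrank_le hrange (by omega)
            have hmem : U.mkQ (-((g : E →L[ℝ] E) x₀ - x₀)) ∈ LinearMap.range ψ :=
              ⟨⟨-((g : E →L[ℝ] E) x₀ - x₀), W.neg_mem (D.Gx g hg)⟩, rfl⟩
            rw [← heq] at hmem
            obtain ⟨w, hw⟩ := hmem
            refine ⟨w, w.2, ?_⟩
            rw [hφ] at hw
            have h5 := (Submodule.Quotient.eq U).1 hw
            convert h5 using 1
            rw [map_add]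
            abel
          obtain ⟨k, hk, hkv⟩ := FO g hg w hw (D.toLin.rel_of_sub h3 hw hwe)
          refine ⟨k, hk, ?_⟩
          have hsub : ∀ v ∈ W, ((g ^ k : (E →L[ℝ] E)ˣ) : E →L[ℝ] E) (x₀ + v) - (x₀ + v) ∈
              uu h x₀ W := by
            intro v hv
            obtain ⟨X, hX, hXe⟩ := hkv v hv
            rw [hXe]
            exact D.toLin.exp_sub_uu hX hv
          intro v hv
          have e1 := Submodule.sub_mem _ (hsub v hv) (hsub 0 W.zero_mem)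
          convert e1 using 1
          rw [map_add, map_add, map_zero]
          abel)
        refine ⟨e + 1, ?_⟩
        have t2 := comm_triv (x₀ := x₀) (K := ds G e) hle D.GW D.Gx D.G_uu (ds_le G e) he
        intro g hg w hw
        exact D.toLin.rel_of_sub h3 hw ((t2 hg).2 _ ⟨w, hw, rfl⟩)

end Data

theorem s1 {W : Submodule ℝ E} {x₀ : E} {h : Submodule ℝ (E →L[ℝ] E)}
    {G : Subgroup (E →L[ℝ] E)ˣ} (D : Dat W x₀ h G) (hd : finrank ℝ W ≤ finrank ℝ h + 1) :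
    ∀ g ∈ ds G 2, ∀ w ∈ W, ∃ X ∈ h, (g : E →L[ℝ] E) (x₀ + w) = exp X (x₀ + w) :=
  D.s1 hd

theorem s2 {W : Submodule ℝ E} {x₀ : E} {h : Submodule ℝ (E →L[ℝ] E)}
    {G : Subgroup (E →L[ℝ] E)ˣ} (D : Dat W x₀ h G) (hd : finrank ℝ W ≤ finrank ℝ h + 2)
    (FO : ∀ g ∈ G, ∀ w ∈ W, (∃ X ∈ h, (g : E →L[ℝ] E) (x₀ + w) = exp X (x₀ + w)) →
      ∃ k : ℕ, 0 < k ∧ ∀ v ∈ W, ∃ X ∈ h,
        ((g ^ k : (E →L[ℝ] E)ˣ) : E →L[ℝ] E) (x₀ + v) = exp X (x₀ + v)) :
    ∃ e : ℕ, ∀ g ∈ ds G e, ∀ w ∈ W, ∃ X ∈ h,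
      (g : E →L[ℝ] E) (x₀ + w) = exp X (x₀ + w) :=
  D.s2 hd FO

end Pool.Agent.H71.AU
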