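import Mathlib
import Pool.Agent.H71.AU.Defs
import Pool.Agent.H71.AU.Exp
import Pool.Agent.H71.AU.Cob
import Pool.Agent.H71.AU.OrbC

/-!
# The core theorem: the derived series is contained in finitely many cosets of `A`
-/

set_option autoImplicit false

namespace Pool.Agent.H71.AU

open NormedSpace Module

section Core

variable {M : Type*} [NormedAddCommGroup M] [NormedSpace ℝ M] [CompleteSpace M]
    [FiniteDimensional ℝ M]

/-- The exponential is bounded on balls. -/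
theorem core_exp_bdd (R : ℝ) : ∃ C : ℝ, ∀ X : M →L[ℝ] M, ‖X‖ ≤ R → ‖exp X‖ ≤ C := by
  have : ProperSpace (M →L[ℝ] M) := FiniteDimensional.proper_real _
  obtain ⟨C, hC⟩ :=
    ((isCompact_closedBall (0 : M →L[ℝ] M) R).image continuous_exp').isBounded.exists_norm_le
  exact ⟨C, fun X hX => hC _ ⟨X, by simpa using hX, rfl⟩⟩

theorem core_exp_fix {X : M →L[ℝ] M} (hX : IsNilpotent X) {x : M} (h : X x = 0) :
    exp X x = x := by
  obtain ⟨m, hm⟩ := hX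
  have h1 : X ^ (m + 1) = 0 := by rw [pow_succ, hm, zero_mul]
  rw [exp_eq_sum_of_pow h1, ContinuousLinearMap.sum_apply, Finset.sum_eq_single 0]
  · simp
  · intro i _ hi
    obtain ⟨j, rfl⟩ := Nat.exists_eq_succ_of_ne_zero hi
    rw [ContinuousLinearMap.smul_apply, Nat.succ_eq_add_one, pow_succ,
      ContinuousLinearMap.mul_apply, h, map_zero, smul_zero]
  · intro h0
    simp at h0

theorem core_tau_exp {X : M →L[ℝ] M} (hX : IsNilpotent X) (τ : M →L[ℝ] ℝ)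
    (h : ∀ y, τ (X y) = 0) (x : M) : τ (exp X x) = τ x := by
  obtain ⟨m, hm⟩ := hX
  have h1 : X ^ (m + 1) = 0 := by rw [pow_succ, hm, zero_mul]
  rw [exp_eq_sum_of_pow h1, ContinuousLinearMap.sum_apply, map_sum, Finset.sum_eq_single 0]
  · simp
  · intro i _ hi
    obtain ⟨j, rfl⟩ := Nat.exists_eq_succ_of_ne_zero hi
    rw [ContinuousLinearMap.smul_apply, Nat.succ_eq_add_one, pow_succ',
      ContinuousLinearMap.mul_apply, map_smul, h, smul_zero]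
  · intro h0
    simp at h0

theorem core_lg_one : lg (1 : M →L[ℝ] M) = 0 :=
  lg_eq (by rw [sub_self]; exact IsNilpotent.zero) IsNilpotent.zero exp_zero

variable {Γ : Type*} [Group Γ] {π : Γ →* (M →L[ℝ] M)} {τ : M →L[ℝ] ℝ} {A : Subgroup Γ}

theorem core_comm (hA : ∀ a ∈ A, ∀ b ∈ A, a * b = b * a) {a b : Γ} (ha : a ∈ A) (hb : b ∈ A) :
    Commute (π a) (π b) := by
  rw [Commute, SemiconjBy, ← map_mul, ← map_mul, hA a ha b hb]

theorem core_lg_mul (hA : ∀ a ∈ A, ∀ b ∈ A, a * b = b * a)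
    (hu : ∀ a ∈ A, IsNilpotent (π a - 1)) {a b : Γ} (ha : a ∈ A) (hb : b ∈ A) :
    lg (π (a * b)) = lg (π a) + lg (π b) := by
  rw [map_mul]
  exact (lg_mul (hu a ha) (hu b hb) (core_comm hA ha hb)).2

theorem core_lg_inv (hA : ∀ a ∈ A, ∀ b ∈ A, a * b = b * a)
    (hu : ∀ a ∈ A, IsNilpotent (π a - 1)) {a : Γ} (ha : a ∈ A) :
    lg (π a⁻¹) = -lg (π a) := by
  have h := core_lg_mul hA hu ha (A.inv_mem ha)
  rw [mul_inv_cancel, map_one, core_lg_one] at h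
  exact (neg_eq_of_add_eq_zero_right h.symm).symm

/-- The group of the logarithms. -/
noncomputable def core_Lam (π : Γ →* (M →L[ℝ] M)) (A : Subgroup Γ)
    (hA : ∀ a ∈ A, ∀ b ∈ A, a * b = b * a) (hu : ∀ a ∈ A, IsNilpotent (π a - 1)) :
    AddSubgroup (M →L[ℝ] M) where
  carrier := {X | ∃ a ∈ A, X = lg (π a)}
  zero_mem' := ⟨1, A.one_mem, by rw [map_one, core_lg_one]⟩
  add_mem' := by
    rintro _ _ ⟨a, ha, rfl⟩ ⟨b, hb, rfl⟩
    exact ⟨a * b, A.mul_mem ha hb, (core_lg_mul hA hu ha hb).symm⟩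
  neg_mem' := by
    rintro _ ⟨a, ha, rfl⟩
    exact ⟨a⁻¹, A.inv_mem ha, (core_lg_inv hA hu ha).symm⟩

variable (hA : ∀ a ∈ A, ∀ b ∈ A, a * b = b * a) (hu : ∀ a ∈ A, IsNilpotent (π a - 1))

include hA hu

theorem core_span_comm : ∀ X ∈ Submodule.span ℝ (core_Lam π A hA hu : Set (M →L[ℝ] M)),
    ∀ Y ∈ Submodule.span ℝ (core_Lam π A hA hu : Set (M →L[ℝ] M)), Commute X Y := by
  have hgen : ∀ a ∈ A, ∀ b ∈ A, Commute (lg (π a)) (lg (π b)) := by
    intro a ha b hb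
    have h1 := lg_commute (hu a ha) (core_comm hA ha hb)
    exact (lg_commute (hu b hb) h1.symm).symm
  intro X hX
  induction hX using Submodule.span_induction with
  | mem X hX =>
    obtain ⟨a, ha, rfl⟩ := hX
    intro Y hY
    induction hY using Submodule.span_induction with
    | mem Y hY =>
      obtain ⟨b, hb, rfl⟩ := hY
      exact hgen a ha b hb
    | zero => exact Commute.zero_right _
    | add Y Z _ _ h1 h2 => exact h1.add_right h2
    | smul c Y _ h1 => exact h1.smul_right c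
  | zero => exact fun Y _ => Commute.zero_left _
  | add X Z _ _ h1 h2 => exact fun Y hY => (h1 Y hY).add_left (h2 Y hY)
  | smul c X _ h1 => exact fun Y hY => (h1 Y hY).smul_left c

theorem core_span_nil : ∀ X ∈ Submodule.span ℝ (core_Lam π A hA hu : Set (M →L[ℝ] M)),
    IsNilpotent X := by
  intro X hX
  induction hX using Submodule.span_induction with
  | mem X hX =>
    obtain ⟨a, ha, rfl⟩ := hX
    exact lg_nil (hu a ha)
  | zero => exact IsNilpotent.zero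
  | add X Y hX hY h1 h2 => exact (core_span_comm hA hu X hX Y hY).isNilpotent_add h1 h2
  | smul c X _ h1 => exact h1.smul c

theorem core_span_tau (hτ : ∀ g y, τ (π g y) = τ y) :
    ∀ X ∈ Submodule.span ℝ (core_Lam π A hA hu : Set (M →L[ℝ] M)), ∀ y, τ (X y) = 0 := by
  intro X hX
  induction hX using Submodule.span_induction with
  | mem X hX =>
    obtain ⟨a, ha, rfl⟩ := hX
    obtain ⟨Y, hY, -⟩ := lg_spec (hu a ha)
    intro y
    rw [hY, ContinuousLinearMap.mul_apply, ContinuousLinearMap.sub_apply,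
      ContinuousLinearMap.one_apply, map_sub, hτ, sub_self]
  | zero => intro y; simp
  | add X Y _ _ h1 h2 => intro y; rw [ContinuousLinearMap.add_apply, map_add, h1, h2, add_zero]
  | smul c X _ h1 => intro y; rw [ContinuousLinearMap.smul_apply, map_smul, h1, smul_zero]

theorem core_conj_mem [A.Normal] (γ : Γ) : ∀ X ∈ Submodule.span ℝ
    (core_Lam π A hA hu : Set (M →L[ℝ] M)),
    π γ * X * π γ⁻¹ ∈ Submodule.span ℝ (core_Lam π A hA hu : Set (M →L[ℝ] M)) := by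
  intro X hX
  induction hX using Submodule.span_induction with
  | mem X hX =>
    obtain ⟨a, ha, rfl⟩ := hX
    refine Submodule.subset_span ⟨γ * a * γ⁻¹, Subgroup.Normal.conj_mem inferInstance a ha γ, ?_⟩
    have h := (lg_conj (π.toHomUnits γ) (hu a ha)).2
    rw [← map_inv, MonoidHom.coe_toHomUnits, MonoidHom.coe_toHomUnits] at h
    rw [map_mul, map_mul, h]
  | zero => simp
  | add X Y _ _ h1 h2 => rw [mul_add, add_mul]; exact add_mem h1 h2
  | smul c X _ h1 =>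
    rw [mul_smul_comm, smul_mul_assoc]
    exact Submodule.smul_mem _ c h1

/-- `exp(-L a) exp(Y) = exp(Y - L a)`, in terms of the representation. -/
theorem core_shift {a : Γ} (ha : a ∈ A) {Y : M →L[ℝ] M}
    (hY : Y ∈ Submodule.span ℝ (core_Lam π A hA hu : Set (M →L[ℝ] M))) (x : M) :
    π a⁻¹ (exp Y x) = exp (Y - lg (π a)) x := by
  have h1 : π a⁻¹ = exp (-lg (π a)) := by
    rw [← core_lg_inv hA hu ha, exp_lg (hu _ (A.inv_mem ha))]
  have hmem : lg (π a) ∈ Submodule.span ℝ (core_Lam π A hA hu : Set (M →L[ℝ] M)) :=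
    Submodule.subset_span ⟨a, ha, rfl⟩
  have h2 : exp (Y - lg (π a)) = exp (-lg (π a)) * exp Y := by
    rw [← exp_add_comm' (core_span_comm hA hu _ (Submodule.neg_mem _ hmem) _ hY)]
    congr 1
    abel
  rw [h1, h2, ContinuousLinearMap.mul_apply]

/-- An element of the lattice near `Y`. -/
theorem core_near {R C : ℝ}
    (hR : ∀ X ∈ Submodule.span ℝ (core_Lam π A hA hu : Set (M →L[ℝ] M)),
      ∃ l ∈ core_Lam π A hA hu, ‖X - l‖ ≤ R)
    (hC : ∀ X : M →L[ℝ] M, ‖X‖ ≤ R → ‖exp X‖ ≤ C) {Y : M →L[ℝ] M}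
    (hY : Y ∈ Submodule.span ℝ (core_Lam π A hA hu : Set (M →L[ℝ] M))) (x : M) :
    ∃ a ∈ A, ‖Y - lg (π a)‖ ≤ R ∧ ‖π a⁻¹ (exp Y x)‖ ≤ C * ‖x‖ := by
  obtain ⟨l, ⟨a, ha, rfl⟩, hl⟩ := hR Y hY
  refine ⟨a, ha, hl, ?_⟩
  rw [core_shift hA hu ha hY]
  exact (ContinuousLinearMap.le_opNorm _ _).trans
    (mul_le_mul_of_nonneg_right (hC _ hl) (norm_nonneg _))

omit hA hu in
theorem core_fin_pt (hprop : ∀ R : ℝ, {g : Γ | ∃ x, τ x = 1 ∧ ‖x‖ ≤ R ∧ ‖π g x‖ ≤ R}.Finite)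
    {x : M} (hx : τ x = 1) (C : ℝ) : {g : Γ | ‖π g x‖ ≤ C}.Finite := by
  refine (hprop (max ‖x‖ C)).subset ?_
  intro g hg
  exact ⟨x, hx, le_max_left _ _, le_trans hg (le_max_right _ _)⟩

omit hA in
theorem core_fin_lg (hprop : ∀ R : ℝ, {g : Γ | ∃ x, τ x = 1 ∧ ‖x‖ ≤ R ∧ ‖π g x‖ ≤ R}.Finite)
    {x₀ : M} (hx₀ : τ x₀ = 1) (R : ℝ) : {a : Γ | a ∈ A ∧ ‖lg (π a)‖ ≤ R}.Finite := by
  obtain ⟨C, hC⟩ := core_exp_bdd (M := M) R
  refine (core_fin_pt hprop hx₀ (C * ‖x₀‖)).subset ?_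
  rintro a ⟨ha, hR⟩
  have h := hC _ hR
  rw [exp_lg (hu a ha)] at h
  exact (ContinuousLinearMap.le_opNorm _ _).trans
    (mul_le_mul_of_nonneg_right h (norm_nonneg _))

theorem core_rank (hprop : ∀ R : ℝ, {g : Γ | ∃ x, τ x = 1 ∧ ‖x‖ ≤ R ∧ ‖π g x‖ ≤ R}.Finite)
    {x₀ : M} (hx₀ : τ x₀ = 1) (k : ℕ) (f : (Fin k → ℤ) →+ Additive A)
    (hf : Function.Injective f) :
    k ≤ finrank ℝ (Submodule.span ℝ (core_Lam π A hA hu : Set (M →L[ℝ] M))) := by
  let φ : (Fin k → ℤ) →+ (M →L[ℝ] M) :=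
    { toFun := fun z => lg (π ((Additive.toMul (f z) : A) : Γ))
      map_zero' := by
        change lg (π ((Additive.toMul (f 0) : A) : Γ)) = 0
        rw [map_zero, toMul_zero, Subgroup.coe_one, map_one, core_lg_one]
      map_add' := fun z w => by
        change lg (π ((Additive.toMul (f (z + w)) : A) : Γ)) = _
        rw [map_add, toMul_add, Subgroup.coe_mul]
        exact core_lg_mul hA hu (Subtype.mem _) (Subtype.mem _) }
  have hφ : ∀ z, φ z = lg (π ((Additive.toMul (f z) : A) : Γ)) := fun z => rfl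
  refine rank_le (core_Lam π A hA hu) (fun R => ?_) k φ ?_ ?_
  · refine ((core_fin_lg hu hprop hx₀ R).image (fun a => lg (π a))).subset ?_
    rintro _ ⟨⟨a, ha, rfl⟩, hR⟩
    exact ⟨a, ⟨ha, hR⟩, rfl⟩
  · rw [injective_iff_map_eq_zero]
    intro z hz
    by_contra hne
    have hfin := core_fin_lg hu hprop hx₀ 0
    have hinj : Function.Injective (fun m : ℕ => ((Additive.toMul (f (m • z)) : A) : Γ)) := by
      intro m m' h
      have h1 : f (m • z) = f (m' • z) := Additive.toMul.injective (Subtype.ext h)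
      have h2 := hf h1
      obtain ⟨i, hi⟩ := Function.ne_iff.1 hne
      have h3 := congrFun h2 i
      rw [Pi.smul_apply, Pi.smul_apply, nsmul_eq_mul, nsmul_eq_mul] at h3
      exact_mod_cast mul_right_cancel₀ hi h3
    have hsub : Set.range (fun m : ℕ => ((Additive.toMul (f (m • z)) : A) : Γ)) ⊆
        {a | a ∈ A ∧ ‖lg (π a)‖ ≤ 0} := by
      rintro _ ⟨m, rfl⟩
      refine ⟨Subtype.mem _, ?_⟩
      rw [← hφ, map_nsmul, hz, smul_zero, norm_zero]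
    exact Set.infinite_range_of_injective hinj (hfin.subset hsub)
  · intro z
    exact ⟨_, Subtype.mem _, rfl⟩

theorem core_inj (hprop : ∀ R : ℝ, {g : Γ | ∃ x, τ x = 1 ∧ ‖x‖ ≤ R ∧ ‖π g x‖ ≤ R}.Finite)
    {X : M →L[ℝ] M} (hX : X ∈ Submodule.span ℝ (core_Lam π A hA hu : Set (M →L[ℝ] M)))
    {x : M} (hx : τ x = 1) (h0 : X x = 0) : X = 0 := by
  obtain ⟨R, hR⟩ := cobounded (core_Lam π A hA hu)
  obtain ⟨C, hC⟩ := core_exp_bdd (M := M) R
  have hfin := core_fin_pt hprop hx (C * ‖x‖)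
  obtain ⟨B, hB⟩ := (hfin.image (fun a => ‖lg (π a)‖)).bddAbove
  have hm : ∀ m : ℕ, m * ‖X‖ ≤ R + B := by
    intro m
    have hmX := Submodule.smul_mem _ (m : ℝ) hX
    obtain ⟨a, ha, h1, h2⟩ := core_near hA hu hR hC hmX x
    have h3 : ((m : ℝ) • X) x = 0 := by rw [ContinuousLinearMap.smul_apply, h0, smul_zero]
    rw [core_exp_fix (core_span_nil hA hu _ hmX) h3] at h2
    have h4 : ‖lg (π a)‖ ≤ B := by
      have h5 : ‖lg (π a⁻¹)‖ ≤ B := hB ⟨a⁻¹, h2, rfl⟩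
      rwa [core_lg_inv hA hu ha, norm_neg] at h5
    calc m * ‖X‖ = ‖(m : ℝ) • X‖ := by rw [norm_smul]; simp
      _ = ‖((m : ℝ) • X - lg (π a)) + lg (π a)‖ := by rw [sub_add_cancel]
      _ ≤ ‖(m : ℝ) • X - lg (π a)‖ + ‖lg (π a)‖ := norm_add_le _ _
      _ ≤ R + B := add_le_add h1 h4
  by_contra hne
  have hpos : 0 < ‖X‖ := norm_pos_iff.2 hne
  obtain ⟨m, hm'⟩ := exists_nat_gt ((R + B) / ‖X‖)
  rw [div_lt_iff₀ hpos] at hm'
  exact absurd (hm m) (not_le.2 hm')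

omit [FiniteDimensional ℝ M] hA hu in
theorem core_ue_conj (γ : Γ) (X : M →L[ℝ] M) :
    π.toHomUnits γ * ue X = ue (π γ * X * π γ⁻¹) * π.toHomUnits γ := by
  have h := ue_conj (π.toHomUnits γ) X
  rw [← map_inv, MonoidHom.coe_toHomUnits, MonoidHom.coe_toHomUnits] at h
  rw [h, mul_assoc, ← map_mul π.toHomUnits, inv_mul_cancel, map_one, mul_one]

/-- The group generated by the image of `Γ` and by the exponentials. -/
noncomputable def core_G (π : Γ →* (M →L[ℝ] M)) (A : Subgroup Γ) [A.Normal]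
    (hA : ∀ a ∈ A, ∀ b ∈ A, a * b = b * a) (hu : ∀ a ∈ A, IsNilpotent (π a - 1)) :
    Subgroup (M →L[ℝ] M)ˣ where
  carrier := {g | ∃ X ∈ Submodule.span ℝ (core_Lam π A hA hu : Set (M →L[ℝ] M)),
    ∃ γ, g = ue X * π.toHomUnits γ}
  one_mem' := ⟨0, zero_mem _, 1, by rw [ue_zero, map_one, one_mul]⟩
  mul_mem' := by
    rintro _ _ ⟨X, hX, γ, rfl⟩ ⟨Y, hY, δ, rfl⟩
    refine ⟨X + π γ * Y * π γ⁻¹, add_mem hX (core_conj_mem hA hu γ Y hY), γ * δ, ?_⟩
    rw [ue_add (core_span_comm hA hu X hX _ (core_conj_mem hA hu γ Y hY)), map_mul]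
    rw [mul_assoc, ← mul_assoc (π.toHomUnits γ), core_ue_conj]
    simp only [mul_assoc]
  inv_mem' := by
    rintro _ ⟨X, hX, γ, rfl⟩
    refine ⟨π γ⁻¹ * (-X) * π γ⁻¹⁻¹, core_conj_mem hA hu γ⁻¹ _ (neg_mem hX), γ⁻¹, ?_⟩
    rw [mul_inv_rev, ← ue_neg, ← map_inv, core_ue_conj]

theorem core_dat [A.Normal]
    (hprop : ∀ R : ℝ, {g : Γ | ∃ x, τ x = 1 ∧ ‖x‖ ≤ R ∧ ‖π g x‖ ≤ R}.Finite)
    (hτ : ∀ g y, τ (π g y) = τ y) {x₀ : M} (hx₀ : τ x₀ = 1) :
    Dat (LinearMap.ker (τ : M →ₗ[ℝ] ℝ)) x₀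
      (Submodule.span ℝ (core_Lam π A hA hu : Set (M →L[ℝ] M))) (core_G π A hA hu) where
  comm := core_span_comm hA hu
  nil := core_span_nil hA hu
  hx := fun X hX => core_span_tau hA hu hτ X hX x₀
  hW := fun X hX w _ => core_span_tau hA hu hτ X hX w
  inj := fun X hX w hw h0 => by
    refine core_inj hA hu hprop hX (x := x₀ + w) ?_ h0
    have hw' : τ w = 0 := hw
    rw [map_add, hx₀, hw', add_zero]
  conj := by
    rintro _ ⟨X, hX, γ, rfl⟩ Y hY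
    have hc := core_conj_mem hA hu γ Y hY
    have e : ((ue X * π.toHomUnits γ : (M →L[ℝ] M)ˣ) : M →L[ℝ] M) * Y *
        (((ue X * π.toHomUnits γ)⁻¹ : (M →L[ℝ] M)ˣ) : M →L[ℝ] M) = π γ * Y * π γ⁻¹ := by
      rw [mul_inv_rev, Units.val_mul, Units.val_mul, ← map_inv, MonoidHom.coe_toHomUnits,
        MonoidHom.coe_toHomUnits, ue_val, ue_inv_val]
      have h1 : exp X * (π γ * Y * π γ⁻¹) = (π γ * Y * π γ⁻¹) * exp X :=
        (commute_exp (core_span_comm hA hu X hX _ hc)).eq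
      calc exp X * π γ * Y * (π γ⁻¹ * exp (-X)) = exp X * (π γ * Y * π γ⁻¹) * exp (-X) := by
            simp only [mul_assoc]
        _ = π γ * Y * π γ⁻¹ := by rw [h1, mul_assoc, exp_mul_exp_neg, mul_one]
    rw [e]
    exact hc
  GW := by
    rintro _ ⟨X, hX, γ, rfl⟩ w hw
    have hw' : τ w = 0 := hw
    change τ (exp X (π γ w)) = 0
    rw [core_tau_exp (core_span_nil hA hu X hX) τ (core_span_tau hA hu hτ X hX), hτ, hw']
  Gx := by
    rintro _ ⟨X, hX, γ, rfl⟩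
    change τ (exp X (π γ x₀) - x₀) = 0
    rw [map_sub, core_tau_exp (core_span_nil hA hu X hX) τ (core_span_tau hA hu hτ X hX), hτ,
      sub_self]
  ex := fun X hX => ⟨X, hX, 1, by rw [map_one, mul_one]⟩

/-- Powers in the group. -/
theorem core_pow [A.Normal] {X : M →L[ℝ] M}
    (hX : X ∈ Submodule.span ℝ (core_Lam π A hA hu : Set (M →L[ℝ] M))) (γ : Γ) (j : ℕ) :
    ∃ Z ∈ Submodule.span ℝ (core_Lam π A hA hu : Set (M →L[ℝ] M)),
      (ue X * π.toHomUnits γ) ^ j = ue Z * π.toHomUnits (γ ^ j) := by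
  induction j with
  | zero => exact ⟨0, zero_mem _, by rw [pow_zero, pow_zero, ue_zero, map_one, one_mul]⟩
  | succ j ih =>
    obtain ⟨Z, hZ, h⟩ := ih
    refine ⟨Z + π (γ ^ j) * X * π (γ ^ j)⁻¹, add_mem hZ (core_conj_mem hA hu _ X hX), ?_⟩
    rw [pow_succ, h, ue_add (core_span_comm hA hu Z hZ _ (core_conj_mem hA hu _ X hX)),
      pow_succ γ j, map_mul, mul_assoc, ← mul_assoc (π.toHomUnits (γ ^ j)), core_ue_conj]
    simp only [mul_assoc]

/-- If `γ` maps `x` into its orbit then so do the powers of `γ`. -/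
theorem core_orbit_pow [A.Normal] {Y : M →L[ℝ] M}
    (hY : Y ∈ Submodule.span ℝ (core_Lam π A hA hu : Set (M →L[ℝ] M))) {γ : Γ} {x : M}
    (h : π γ x = exp Y x) (m : ℕ) :
    ∃ Z ∈ Submodule.span ℝ (core_Lam π A hA hu : Set (M →L[ℝ] M)), π (γ ^ m) x = exp Z x := by
  induction m with
  | zero => exact ⟨0, zero_mem _, by rw [pow_zero, map_one, exp_zero]⟩
  | succ m ih =>
    obtain ⟨Z, hZ, h1⟩ := ih
    have hc := core_conj_mem hA hu γ Z hZ
    refine ⟨π γ * Z * π γ⁻¹ + Y, add_mem hc hY, ?_⟩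
    have h2 : π γ * exp Z = exp (π γ * Z * π γ⁻¹) * π γ := by
      have h3 := congrArg (fun u : (M →L[ℝ] M)ˣ => (u : M →L[ℝ] M)) (core_ue_conj (π := π) γ Z)
      simpa using h3
    rw [pow_succ', map_mul, ContinuousLinearMap.mul_apply, h1, ← ContinuousLinearMap.mul_apply,
      h2, ContinuousLinearMap.mul_apply, h, ← ContinuousLinearMap.mul_apply,
      ← exp_add_comm' (core_span_comm hA hu _ hc _ hY)]

theorem core_FO [A.Normal]
    (hprop : ∀ R : ℝ, {g : Γ | ∃ x, τ x = 1 ∧ ‖x‖ ≤ R ∧ ‖π g x‖ ≤ R}.Finite)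
    {g : (M →L[ℝ] M)ˣ} (hg : g ∈ core_G π A hA hu) {x : M} (hx : τ x = 1)
    (h : ∃ X ∈ Submodule.span ℝ (core_Lam π A hA hu : Set (M →L[ℝ] M)),
      (g : M →L[ℝ] M) x = exp X x) :
    ∃ k : ℕ, 0 < k ∧ ∃ X ∈ Submodule.span ℝ (core_Lam π A hA hu : Set (M →L[ℝ] M)),
      g ^ k = ue X := by
  obtain ⟨X₁, hX₁, γ, rfl⟩ := hg
  obtain ⟨X, hX, he⟩ := h
  have hY : -X₁ + X ∈ Submodule.span ℝ (core_Lam π A hA hu : Set (M →L[ℝ] M)) :=
    add_mem (neg_mem hX₁) hX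
  have h1 : π γ x = exp (-X₁ + X) x := by
    have he' : exp X₁ (π γ x) = exp X x := he
    have h2 : exp (-X₁) (exp X₁ (π γ x)) = π γ x := by
      rw [← ContinuousLinearMap.mul_apply, exp_neg_mul_exp]
      rfl
    rw [← h2, he', ← ContinuousLinearMap.mul_apply,
      ← exp_add_comm' (core_span_comm hA hu _ (neg_mem hX₁) _ hX)]
  obtain ⟨R, hR⟩ := cobounded (core_Lam π A hA hu)
  obtain ⟨C, hC⟩ := core_exp_bdd (M := M) R
  have hfin := core_fin_pt hprop hx (C * ‖x‖)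
  have key : ∀ m : ℕ, ∃ a ∈ A, a⁻¹ * γ ^ m ∈ {g : Γ | ‖π g x‖ ≤ C * ‖x‖} := by
    intro m
    obtain ⟨Z, hZ, h3⟩ := core_orbit_pow hA hu hY h1 m
    obtain ⟨a, ha, -, h4⟩ := core_near hA hu hR hC hZ x
    refine ⟨a, ha, ?_⟩
    rw [Set.mem_setOf_eq, map_mul, ContinuousLinearMap.mul_apply, h3]
    exact h4
  choose a ha hS using key
  obtain ⟨m, -, m', -, hne, hmm⟩ := Set.infinite_univ.exists_ne_map_eq_of_mapsTo
    (f := fun m : ℕ => (a m)⁻¹ * γ ^ m) (t := {g : Γ | ‖π g x‖ ≤ C * ‖x‖})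
    (fun m _ => hS m) hfin
  wlog hlt : m < m' generalizing m m'
  · exact this m' m hne.symm hmm.symm (lt_of_le_of_ne (not_lt.1 hlt) hne.symm)
  have hmm' : (a m)⁻¹ * γ ^ m = (a m')⁻¹ * γ ^ m' := hmm
  have hmem : γ ^ (m' - m) ∈ A := by
    have e1 : γ ^ m' = γ ^ (m' - m) * γ ^ m := by rw [← pow_add, Nat.sub_add_cancel hlt.le]
    rw [e1, ← mul_assoc] at hmm'
    have e2 := mul_right_cancel hmm'
    have e3 : γ ^ (m' - m) = a m' * (a m)⁻¹ := by rw [e2, mul_inv_cancel_left]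
    rw [e3]
    exact A.mul_mem (ha m') (A.inv_mem (ha m))
  obtain ⟨Z, hZ, hZe⟩ := core_pow hA hu hX₁ γ (m' - m)
  have hl : lg (π (γ ^ (m' - m))) ∈
      Submodule.span ℝ (core_Lam π A hA hu : Set (M →L[ℝ] M)) :=
    Submodule.subset_span ⟨_, hmem, rfl⟩
  refine ⟨m' - m, Nat.sub_pos_of_lt hlt, Z + lg (π (γ ^ (m' - m))), add_mem hZ hl, ?_⟩
  rw [hZe, ue_add (core_span_comm hA hu _ hZ _ hl)]
  congr 1
  ext1
  rw [MonoidHom.coe_toHomUnits, ue_val, exp_lg (hu _ hmem)]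

omit [FiniteDimensional ℝ M] hA hu in
theorem core_derived {G : Subgroup (M →L[ℝ] M)ˣ} (hG : ∀ γ, π.toHomUnits γ ∈ G) (e : ℕ) :
    ∀ γ ∈ derivedSeries Γ e, π.toHomUnits γ ∈ ds G e := by
  induction e with
  | zero => exact fun γ _ => hG γ
  | succ e ih =>
    intro γ hγ
    have h1 : (derivedSeries Γ e).map π.toHomUnits ≤ ds G e := by
      rintro _ ⟨δ, hδ, rfl⟩
      exact ih δ hδ
    have h2 : (derivedSeries Γ (e + 1)).map π.toHomUnits ≤ ds G (e + 1) := by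
      rw [derivedSeries_succ, Subgroup.map_commutator]
      exact Subgroup.commutator_mono h1 h1
    exact h2 ⟨γ, hγ, rfl⟩

end Core

theorem core {M : Type*} [NormedAddCommGroup M] [NormedSpace ℝ M] [CompleteSpace M]
    [FiniteDimensional ℝ M] {Γ : Type*} [Group Γ] (π : Γ →* (M →L[ℝ] M)) (τ : M →L[ℝ] ℝ)
    (x₀ : M) (hx₀ : τ x₀ = 1) (hτ : ∀ g y, τ (π g y) = τ y)
    (hprop : ∀ R : ℝ, {g : Γ | ∃ x, τ x = 1 ∧ ‖x‖ ≤ R ∧ ‖π g x‖ ≤ R}.Finite)
    (A : Subgroup Γ) [A.Normal] (hA : ∀ a ∈ A, ∀ b ∈ A, a * b = b * a)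
    (hu : ∀ a ∈ A, IsNilpotent (π a - 1))
    (k : ℕ) (f : (Fin k → ℤ) →+ Additive A) (hf : Function.Injective f)
    (hk : finrank ℝ M ≤ k + 3) :
    ∃ e : ℕ, ∃ Φ : Set Γ, Φ.Finite ∧
      ∀ g ∈ derivedSeries Γ e, ∃ a ∈ A, ∃ φ ∈ Φ, g = a * φ := by
  have D := core_dat hA hu hprop hτ hx₀
  have hrank := core_rank hA hu hprop hx₀ k f hf
  have hsurj : Function.Surjective (τ : M →ₗ[ℝ] ℝ) := by
    intro c
    exact ⟨c • x₀, by simp [hx₀]⟩
  have hker : finrank ℝ (LinearMap.ker (τ : M →ₗ[ℝ] ℝ)) + 1 = finrank ℝ M := by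
    have h1 := LinearMap.finrank_range_add_finrank_ker (τ : M →ₗ[ℝ] ℝ)
    rw [LinearMap.range_eq_top.2 hsurj, finrank_top, finrank_self] at h1
    omega
  obtain ⟨e, he⟩ := s2 D (by omega) (by
    intro g hg w hw hX
    have hw' : τ w = 0 := hw
    have hx : τ (x₀ + w) = 1 := by rw [map_add, hx₀, hw', add_zero]
    obtain ⟨j, hj, X, hX', hgj⟩ := core_FO hA hu hprop hg hx hX
    exact ⟨j, hj, fun v _ => ⟨X, hX', by rw [hgj, ue_val]⟩⟩)
  obtain ⟨R, hR⟩ := cobounded (core_Lam π A hA hu)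
  obtain ⟨C, hC⟩ := core_exp_bdd (M := M) R
  refine ⟨e, {g : Γ | ‖π g x₀‖ ≤ C * ‖x₀‖}, core_fin_pt hprop hx₀ _, fun γ hγ => ?_⟩
  have hmem := core_derived (π := π) (G := core_G π A hA hu)
    (fun γ => ⟨0, zero_mem _, γ, by rw [ue_zero, one_mul]⟩) e γ hγ
  obtain ⟨X, hX, hXe⟩ := he _ hmem 0 (zero_mem _)
  rw [add_zero, MonoidHom.coe_toHomUnits] at hXe
  obtain ⟨a, ha, -, h4⟩ := core_near hA hu hR hC hX x₀
  refine ⟨a, ha, a⁻¹ * γ, ?_, by rw [mul_inv_cancel_left]⟩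
  rw [Set.mem_setOf_eq, map_mul, ContinuousLinearMap.mul_apply, hXe]
  exact h4

end Pool.Agent.H71.AU
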