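import Mathlib

/-! Project AU (MP_68c2bd): joint generalised eigenvector of a commuting set of linear maps
preserving a linear form (Fitting decomposition). -/

set_option autoImplicit false

namespace Pool.Agent.H71.AU

open Module

theorem fit_range {F : Type*} [AddCommGroup F] [Module ℝ F] [FiniteDimensional ℝ F]
    (g : Module.End ℝ F) (N : ℕ) (hN : finrank ℝ F ≤ N) (x : F) :
    ∃ y, (g ^ N) x = (g ^ N) ((g ^ N) y) := by
  have h1 : LinearMap.ker (g ^ N) = LinearMap.ker (g ^ (N + N)) := by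
    rw [Module.End.ker_pow_eq_ker_pow_finrank_of_le hN,
      Module.End.ker_pow_eq_ker_pow_finrank_of_le (show finrank ℝ F ≤ N + N by omega)]
  have h2 : finrank ℝ (LinearMap.range (g ^ (N + N))) = finrank ℝ (LinearMap.range (g ^ N)) := by
    have e1 := LinearMap.finrank_range_add_finrank_ker (g ^ N)
    have e2 := LinearMap.finrank_range_add_finrank_ker (g ^ (N + N))
    rw [← h1] at e2
    omega
  have h3 : LinearMap.range (g ^ (N + N)) ≤ LinearMap.range (g ^ N) := by
    rintro _ ⟨y, rfl⟩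
    exact ⟨(g ^ N) y, by rw [pow_add]; rfl⟩
  have h4 := Submodule.eq_of_le_of_finrank_eq h3 h2
  have h5 : (g ^ N) x ∈ LinearMap.range (g ^ (N + N)) := by
    rw [h4]
    exact ⟨x, rfl⟩
  obtain ⟨y, hy⟩ := h5
  refine ⟨y, ?_⟩
  rw [← hy, pow_add]
  rfl

theorem fit {E : Type*} [AddCommGroup E] [Module ℝ E] [FiniteDimensional ℝ E]
    (S : Set (Module.End ℝ E)) (hS : ∀ a ∈ S, ∀ b ∈ S, Commute a b)
    (τ : E →ₗ[ℝ] ℝ) (hτ : ∀ a ∈ S, ∀ y, τ (a y) = τ y) (h0 : τ ≠ 0) :
    ∃ x₀ : E, τ x₀ = 1 ∧ ∀ a ∈ S, ((a - 1) ^ (finrank ℝ E + 1)) x₀ = 0 := by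
  set N := finrank ℝ E + 1 with hNdef
  have hτ1 : ∀ a ∈ S, ∀ y, τ (((a - 1) ^ N) y) = 0 := by
    intro a ha y
    have : ((a - 1) ^ N) y = (a - 1) (((a - 1) ^ (finrank ℝ E)) y) := by
      rw [hNdef, pow_succ']
      rfl
    rw [this, LinearMap.sub_apply, map_sub, hτ a ha, Module.End.one_apply, sub_self]
  have key : ∀ d : ℕ, ∀ F : Submodule ℝ E, finrank ℝ F ≤ d → (∀ a ∈ S, ∀ x ∈ F, a x ∈ F) →
      (∃ x ∈ F, τ x ≠ 0) → ∃ x ∈ F, τ x ≠ 0 ∧ ∀ a ∈ S, ((a - 1) ^ N) x = 0 := by
    intro d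
    induction d with
    | zero =>
      rintro F hF - ⟨x, hx, hx0⟩
      have : F = ⊥ := Submodule.finrank_eq_zero.1 (Nat.le_zero.1 hF)
      rw [this, Submodule.mem_bot] at hx
      exact absurd (by rw [hx, map_zero]) hx0
    | succ d ih =>
      rintro F hF hinv ⟨x1, hx1, hx10⟩
      by_cases hall : ∀ a ∈ S, ∀ x ∈ F, ((a - 1) ^ N) x = 0
      · exact ⟨x1, hx1, hx10, fun a ha => hall a ha x1 hx1⟩
      push Not at hall
      obtain ⟨a, ha, x2, hx2, hx20⟩ := hall
      have hinv1 : ∀ x ∈ F, (a - 1) x ∈ F := by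
        intro x hx
        rw [LinearMap.sub_apply, Module.End.one_apply]
        exact F.sub_mem (hinv a ha x hx) hx
      obtain ⟨y, hy⟩ := fit_range ((a - 1).restrict hinv1) N
        (by have := Submodule.finrank_le F; omega) ⟨x1, hx1⟩
      have hpow : ∀ (k : ℕ) (z : F), ((((a - 1).restrict hinv1) ^ k) z : E) =
          ((a - 1) ^ k) (z : E) := by
        intro k z
        rw [Module.End.pow_restrict k hinv1]
        rfl
      have hy' := congrArg (Subtype.val) hy
      rw [hpow, hpow, hpow] at hy'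
      set F' : Submodule ℝ E := F ⊓ LinearMap.ker ((a - 1) ^ N) with hF'
      have hlt : F' < F := by
        refine lt_of_le_of_ne inf_le_left ?_
        intro he
        rw [← he] at hx2
        exact hx20 (LinearMap.mem_ker.1 hx2.2)
      have hfr : finrank ℝ F' ≤ d := by
        have := Submodule.finrank_lt_finrank_of_lt hlt
        omega
      have hcomm : ∀ b ∈ S, Commute ((a - 1) ^ N) b := by
        intro b hb
        exact ((hS a ha b hb).sub_left (Commute.one_left b)).pow_left N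
      obtain ⟨x, hx, hx0, hxS⟩ := ih F' hfr (by
        intro b hb z hz
        refine ⟨hinv b hb z hz.1, ?_⟩
        rw [SetLike.mem_coe, LinearMap.mem_ker]
        have h1 : ((a - 1) ^ N) (b z) = b (((a - 1) ^ N) z) := by
          have := congrArg (fun f : Module.End ℝ E => f z) (hcomm b hb).eq
          exact this
        rw [h1, LinearMap.mem_ker.1 hz.2, map_zero]) ⟨x1 - ((a - 1) ^ N) (y : E), by
          refine ⟨F.sub_mem hx1 ?_, ?_⟩
          · rw [← hpow]
            exact Subtype.property _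
          · rw [SetLike.mem_coe, LinearMap.mem_ker, map_sub, hy', sub_self], by
          rw [map_sub, hτ1 a ha, sub_zero]
          exact hx10⟩
      exact ⟨x, hlt.le hx, hx0, hxS⟩
  obtain ⟨x, -, hx0, hxS⟩ := key (finrank ℝ E) ⊤ (Submodule.finrank_le _)
    (fun a _ x _ => Submodule.mem_top) (by
      by_contra hcon
      push Not at hcon
      exact h0 (LinearMap.ext fun x => by simpa using hcon x Submodule.mem_top))
  refine ⟨(τ x)⁻¹ • x, ?_, ?_⟩
  · rw [map_smul, smul_eq_mul, inv_mul_cancel₀ hx0]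
  · intro a ha
    rw [map_smul, hxS a ha, smul_zero]

end Pool.Agent.H71.AU
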