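import Mathlib
import Pool.Agent.H71.AU.Defs

/-! AU-6: a group whose derived series enters finitely many cosets of an abelian normal subgroup
is virtually solvable. -/

set_option autoImplicit false

namespace Pool.Agent.H71.AU

theorem grp_solvable_of_finite {Q : Type*} [Group Q] (e : ℕ) [Finite (derivedSeries Q e)] :
    ∃ C : Subgroup Q, C.FiniteIndex ∧ IsSolvable C := by
  haveI : (derivedSeries Q e).Normal := derivedSeries_normal Q e
  obtain ⟨C, hC⟩ : ∃ C : Subgroup Q,
      C = (MulAut.conjNormal : Q →* MulAut (derivedSeries Q e)).ker := ⟨_, rfl⟩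
  refine ⟨C, by rw [hC]; infer_instance, ⟨e + 1, ?_⟩⟩
  rw [derivedSeries_succ, Subgroup.commutator_eq_bot_iff_le_centralizer]
  intro x _
  rw [Subgroup.mem_centralizer_iff]
  intro y hy
  have hy' : (y : Q) ∈ derivedSeries Q e := by
    have := map_derivedSeries_le_derivedSeries C.subtype e
    exact this ⟨y, hy, rfl⟩
  have hx' : (MulAut.conjNormal : Q →* MulAut (derivedSeries Q e)) (x : Q) = 1 := by
    have h0 : ∀ z ∈ C, (MulAut.conjNormal : Q →* MulAut (derivedSeries Q e)) z = 1 := by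
      intro z hz
      rw [hC, MonoidHom.mem_ker] at hz
      exact hz
    exact h0 x x.2
  have h2 : (MulAut.conjNormal (x : Q) : MulAut (derivedSeries Q e)) ⟨(y : Q), hy'⟩ =
      ⟨(y : Q), hy'⟩ := by
    rw [hx']; rfl
  have h3 := congrArg Subtype.val h2
  rw [MulAut.conjNormal_apply] at h3
  apply Subtype.ext
  simp only [Subgroup.coe_mul]
  simp only at h3
  rw [mul_inv_eq_iff_eq_mul] at h3
  exact h3.symm

theorem grp {Γ : Type*} [Group Γ] (A : Subgroup Γ) [A.Normal]
    (hA : ∀ a ∈ A, ∀ b ∈ A, a * b = b * a) (e : ℕ) (Φ : Set Γ) (hΦ : Φ.Finite)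
    (h : ∀ g ∈ derivedSeries Γ e, ∃ a ∈ A, ∃ φ ∈ Φ, g = a * φ) :
    ∃ H : Subgroup Γ, H.FiniteIndex ∧ IsSolvable H := by
  have hD : (derivedSeries Γ e).map (QuotientGroup.mk' A) = derivedSeries (Γ ⧸ A) e :=
    map_derivedSeries_eq (QuotientGroup.mk'_surjective A) e
  haveI : Finite (derivedSeries (Γ ⧸ A) e) := by
    have : ((derivedSeries (Γ ⧸ A) e : Subgroup (Γ ⧸ A)) : Set (Γ ⧸ A)).Finite := by
      refine (hΦ.image (QuotientGroup.mk' A)).subset ?_
      intro x hx
      rw [SetLike.mem_coe, ← hD] at hx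
      obtain ⟨g, hg, rfl⟩ := hx
      obtain ⟨a, ha, φ, hφ, rfl⟩ := h g hg
      refine ⟨φ, hφ, ?_⟩
      have h1 : QuotientGroup.mk' A a = 1 := (QuotientGroup.eq_one_iff a).2 ha
      rw [map_mul, h1, one_mul]
    exact this.to_subtype
  obtain ⟨C, hC1, hC2⟩ := grp_solvable_of_finite (Q := Γ ⧸ A) e
  obtain ⟨H, hH⟩ : ∃ H : Subgroup Γ, H = C.comap (QuotientGroup.mk' A) := ⟨_, rfl⟩
  have hH1 : H.FiniteIndex := by
    rw [hH]
    refine ⟨?_⟩
    rw [Subgroup.index_comap_of_surjective _ (QuotientGroup.mk'_surjective A)]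
    exact hC1.index_ne_zero
  refine ⟨H, hH1, ?_⟩
  have hcomm : ∀ x y : (A.subgroupOf H), x * y = y * x := by
    rintro ⟨⟨x, hx⟩, hx'⟩ ⟨⟨y, hy⟩, hy'⟩
    apply Subtype.ext
    apply Subtype.ext
    exact hA x hx' y hy'
  haveI : Group.IsSolvable (A.subgroupOf H) := Group.isSolvable_of_comm hcomm
  haveI : Group.IsSolvable C := hC2
  have hmem : ∀ x : H, QuotientGroup.mk' A (x : Γ) ∈ C := by
    intro x
    have h0 : ∀ z ∈ H, QuotientGroup.mk' A z ∈ C := by
      intro z hz
      rw [hH] at hz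
      exact hz
    exact h0 x x.2
  let f : H →* C := ((QuotientGroup.mk' A).comp H.subtype).codRestrict C hmem
  refine solvable_of_ker_le_range (A.subgroupOf H).subtype f ?_
  intro x hx
  rw [MonoidHom.mem_ker] at hx
  have h1 : QuotientGroup.mk' A (x : Γ) = 1 := congrArg Subtype.val hx
  rw [Subgroup.range_subtype, Subgroup.mem_subgroupOf]
  exact (QuotientGroup.eq_one_iff (x : Γ)).1 h1

end Pool.Agent.H71.AU
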