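import Mathlib
import Pool.Agent.H71.AU.Defs
import Pool.Agent.H71.AU.Grp
import Pool.Agent.H71.AU.Fit
import Pool.Agent.H71.AU.Core

set_option autoImplicit false

/-! Project AU (MP_68c2bd): the main theorem, from `fit`, `core` and `grp`. -/

namespace Pool.Agent.H71.AU

open NormedSpace Module

/-- The linear map on `V × ℝ` attached to an affine automorphism of `V`. -/
noncomputable def main_hat {V : Type*} [AddCommGroup V] [Module ℝ V] :
    (V ≃ᵃ[ℝ] V) →* Module.End ℝ (V × ℝ) where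
  toFun g := LinearMap.prod
    ((g.linear : V →ₗ[ℝ] V).comp (LinearMap.fst ℝ V ℝ) + (LinearMap.snd ℝ V ℝ).smulRight (g 0))
    (LinearMap.snd ℝ V ℝ)
  map_one' := by
    apply LinearMap.ext
    rintro ⟨v, t⟩
    simp [AffineEquiv.one_def, AffineEquiv.linear_refl]
  map_mul' g h := by
    apply LinearMap.ext
    rintro ⟨v, t⟩
    have h1 : (g * h) 0 = g.linear (h 0) + g 0 := by
      have := g.map_vadd 0 (h 0)
      simp only [vadd_eq_add, add_zero] at this
      rw [AffineEquiv.mul_def, AffineEquiv.trans_apply, this]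
    change ((g * h).linear v + t • (g * h) 0, t) =
      (g.linear (h.linear v + t • h 0) + t • g 0, t)
    have h2 : (g * h).linear v = g.linear (h.linear v) := rfl
    rw [h1, h2, map_add, map_smul, smul_add, add_assoc]

lemma main_hat_apply {V : Type*} [AddCommGroup V] [Module ℝ V] (g : V ≃ᵃ[ℝ] V) (y : V × ℝ) :
    main_hat g y = (g.linear y.1 + y.2 • g 0, y.2) := rfl

lemma main_hat_snd {V : Type*} [AddCommGroup V] [Module ℝ V] (g : V ≃ᵃ[ℝ] V) (y : V × ℝ) :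
    (main_hat g y).2 = y.2 := rfl

lemma main_hat_one {V : Type*} [AddCommGroup V] [Module ℝ V] (g : V ≃ᵃ[ℝ] V) (y : V × ℝ)
    (hy : y.2 = 1) : main_hat g y = (g y.1, 1) := by
  rw [main_hat_apply, hy, one_smul]
  have := g.map_vadd 0 y.1
  simp only [vadd_eq_add, add_zero] at this
  rw [this]

/-- Restriction of a representation to an invariant subspace, as continuous linear maps. -/
noncomputable def main_res {Γ E : Type*} [Group Γ] [NormedAddCommGroup E] [NormedSpace ℝ E]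
    [FiniteDimensional ℝ E] (ρ : Γ →* Module.End ℝ E) (M : Submodule ℝ E)
    (hM : ∀ g, ∀ y ∈ M, ρ g y ∈ M) : Γ →* (M →L[ℝ] M) where
  toFun g := LinearMap.toContinuousLinearMap ((ρ g).restrict (hM g))
  map_one' := by
    ext x
    simp
  map_mul' g h := by
    ext x
    simp

lemma main_res_apply {Γ E : Type*} [Group Γ] [NormedAddCommGroup E] [NormedSpace ℝ E]
    [FiniteDimensional ℝ E] (ρ : Γ →* Module.End ℝ E) (M : Submodule ℝ E)
    (hM : ∀ g, ∀ y ∈ M, ρ g y ∈ M) (g : Γ) (x : M) :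
    ((main_res ρ M hM g x : M) : E) = ρ g x := rfl

lemma main_res_pow {Γ E : Type*} [Group Γ] [NormedAddCommGroup E] [NormedSpace ℝ E]
    [FiniteDimensional ℝ E] (ρ : Γ →* Module.End ℝ E) (M : Submodule ℝ E)
    (hM : ∀ g, ∀ y ∈ M, ρ g y ∈ M) (g : Γ) (m : ℕ) (x : M) :
    ((((main_res ρ M hM g - 1) ^ m) x : M) : E) = ((ρ g - 1) ^ m) x := by
  induction m generalizing x with
  | zero => simp
  | succ m ih =>
    rw [pow_succ, pow_succ]
    have h1 : ((main_res ρ M hM g - 1) ^ m * (main_res ρ M hM g - 1)) x =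
      ((main_res ρ M hM g - 1) ^ m) ((main_res ρ M hM g - 1) x) := rfl
    rw [h1, ih]
    rfl

theorem main (n : ℕ) (Γ : Subgroup ((Fin n → ℝ) ≃ᵃ[ℝ] (Fin n → ℝ)))
    (hprop : ∀ K : Set (Fin n → ℝ), IsCompact K →
      {g : (Fin n → ℝ) ≃ᵃ[ℝ] (Fin n → ℝ) | g ∈ Γ ∧ (⇑g '' K ∩ K).Nonempty}.Finite)
    (A : Subgroup Γ) [A.Normal] (hA : ∀ a ∈ A, ∀ b ∈ A, a * b = b * a)
    (k : ℕ) (hk : n ≤ k + 2) (f : (Fin k → ℤ) →+ Additive A) (hf : Function.Injective f) :
    ∃ H : Subgroup Γ, H.FiniteIndex ∧ Group.IsSolvable H := by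
  classical
  set ρ : Γ →* Module.End ℝ ((Fin n → ℝ) × ℝ) := main_hat.comp Γ.subtype with hρdef
  have hρsnd : ∀ (g : Γ) (y : (Fin n → ℝ) × ℝ), (ρ g y).2 = y.2 := fun g y => rfl
  have hfin : finrank ℝ ((Fin n → ℝ) × ℝ) = n + 1 := by simp
  set N : ℕ := finrank ℝ ((Fin n → ℝ) × ℝ) + 1 with hN
  -- the common generalised eigenvector
  obtain ⟨x₀, hx₀, hx₀A⟩ := fit (ρ '' (A : Set Γ))
    (by
      rintro _ ⟨a, ha, rfl⟩ _ ⟨b, hb, rfl⟩
      change ρ a * ρ b = ρ b * ρ a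
      rw [← map_mul, ← map_mul, hA a ha b hb])
    (LinearMap.snd ℝ (Fin n → ℝ) ℝ)
    (by
      rintro _ ⟨a, ha, rfl⟩ y
      rfl)
    (by
      intro h
      have := congrArg (fun φ : ((Fin n → ℝ) × ℝ) →ₗ[ℝ] ℝ => φ (0, 1)) h
      simp at this)
  -- the invariant subspace
  let M : Submodule ℝ ((Fin n → ℝ) × ℝ) :=
    ⨅ a : A, LinearMap.ker ((ρ (a : Γ) - 1) ^ N)
  have hmem : ∀ y, y ∈ M ↔ ∀ a ∈ A, ((ρ a - 1) ^ N) y = 0 := by
    intro y
    simp only [M, Submodule.mem_iInf, LinearMap.mem_ker, Subtype.forall]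
  have hM : ∀ g, ∀ y ∈ M, ρ g y ∈ M := by
    intro g y hy
    rw [hmem] at hy ⊢
    intro a ha
    have hc : g⁻¹ * a * g ∈ A := by
      have := (inferInstance : A.Normal).conj_mem a ha g⁻¹
      simpa using this
    have hs : SemiconjBy (ρ g) (ρ (g⁻¹ * a * g) - 1) (ρ a - 1) := by
      change ρ g * (ρ (g⁻¹ * a * g) - 1) = (ρ a - 1) * ρ g
      rw [mul_sub, sub_mul, ← map_mul, ← map_mul, mul_one, one_mul]
      congr 2
      group
    have h1 := hs.pow_right N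
    have h2 : ((ρ a - 1) ^ N) (ρ g y) = ρ g (((ρ (g⁻¹ * a * g) - 1) ^ N) y) := by
      have := congrArg (fun φ : Module.End ℝ ((Fin n → ℝ) × ℝ) => φ y) h1.eq
      simpa using this.symm
    rw [h2, hy _ hc, map_zero]
  have hx₀M : x₀ ∈ M := by
    rw [hmem]
    intro a ha
    exact hx₀A _ ⟨a, ha, rfl⟩
  obtain ⟨e, Φ, hΦ, h⟩ := core (main_res ρ M hM)
    ((ContinuousLinearMap.snd ℝ (Fin n → ℝ) ℝ).comp M.subtypeL) ⟨x₀, hx₀M⟩ hx₀
    (fun g y => rfl)
    (by
      intro R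
      have h1 := hprop (Metric.closedBall 0 R) (isCompact_closedBall _ _)
      have h2 := h1.preimage (f := (Subtype.val : Γ → (Fin n → ℝ) ≃ᵃ[ℝ] (Fin n → ℝ)))
        (Subtype.val_injective.injOn)
      refine h2.subset ?_
      rintro g ⟨x, hx1, hxR, hgR⟩
      have hx1' : ((x : M) : (Fin n → ℝ) × ℝ).2 = 1 := hx1
      have e1 : ((main_res ρ M hM g x : M) : (Fin n → ℝ) × ℝ) =
          ((g : (Fin n → ℝ) ≃ᵃ[ℝ] (Fin n → ℝ)) ((x : M) : (Fin n → ℝ) × ℝ).1, 1) :=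
        main_hat_one _ _ hx1'
      refine ⟨g.2, (g : (Fin n → ℝ) ≃ᵃ[ℝ] (Fin n → ℝ)) ((x : M) : (Fin n → ℝ) × ℝ).1,
        ⟨((x : M) : (Fin n → ℝ) × ℝ).1, ?_, rfl⟩, ?_⟩
      · rw [mem_closedBall_zero_iff]
        exact (norm_fst_le _).trans hxR
      · rw [mem_closedBall_zero_iff]
        have h3 : ‖((main_res ρ M hM g x : M) : (Fin n → ℝ) × ℝ)‖ ≤ R := hgR
        rw [e1] at h3
        exact (norm_fst_le _).trans h3)
    A hA
    (by
      intro a ha
      refine ⟨N, ?_⟩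
      ext1 x
      apply Subtype.ext
      rw [main_res_pow]
      exact (hmem _).1 x.2 a ha)
    k f hf
    (by
      have := M.finrank_le
      omega)
  exact grp A hA e Φ hΦ h

end Pool.Agent.H71.AU
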