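import Mathlib
import Pool.Agent.H71.AU.Defs

/-! AU-3: groups of 2x2 matrices all of whose elements have the eigenvalue 1 or finite order; the
case of an element with determinant different from ±1. -/

set_option autoImplicit false

namespace Pool.Agent.H71.AU

open NormedSpace Module

theorem matA_entry {G : Type*} [Group G] (ρ : G →* Matrix (Fin 2) (Fin 2) ℝ)
    (h : ∀ g, (ρ g - 1).det = 0 ∨ ∃ k : ℕ, 0 < k ∧ (ρ g) ^ k = 1)
    (g₀ : G) (μ : ℝ) (hμ0 : μ ≠ 0) (hμ1 : |μ| ≠ 1) (hg₀ : ρ g₀ = !![1, 0; 0, μ]) (g : G) :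
    ρ g 0 0 = 1 ∧ ρ g 0 1 * ρ g 1 0 = 0 := by
  set a := ρ g 0 0 with ha
  set b := ρ g 0 1 with hb
  set c := ρ g 1 0 with hc
  set d := ρ g 1 1 with hd
  have hdet : |a * d - b * c| ≠ 0 := by
    rw [Ne, abs_eq_zero]
    intro h0
    have h1 : (ρ g).det * (ρ g⁻¹).det = 1 := by
      rw [← Matrix.det_mul, ← map_mul, mul_inv_cancel, map_one, Matrix.det_one]
    rw [Matrix.det_fin_two, ← ha, ← hb, ← hc, ← hd, h0, zero_mul] at h1
    exact zero_ne_one h1
  have hpow : ∀ m : ℕ, ρ (g₀ ^ m) = !![1, 0; 0, μ ^ m] := by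
    intro m
    induction m with
    | zero =>
      rw [pow_zero, map_one, pow_zero]
      exact Matrix.one_fin_two
    | succ m ih =>
      rw [pow_succ, map_mul, ih, hg₀, Matrix.mul_fin_two]
      simp [pow_succ]
  have hE : ∀ m : ℕ, (a - 1) * (μ ^ m * d - 1) = b * (μ ^ m * c) ∨
      |μ| ^ m * |a * d - b * c| = 1 := by
    intro m
    have e1 : ρ (g₀ ^ m * g) = !![a, b; μ ^ m * c, μ ^ m * d] := by
      rw [map_mul, hpow, Matrix.eta_fin_two (ρ g), Matrix.mul_fin_two]
      simp [← ha, ← hb, ← hc, ← hd]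
    rcases h (g₀ ^ m * g) with h1 | ⟨k, hk, h1⟩
    · left
      rw [e1, Matrix.det_fin_two] at h1
      simp at h1
      linarith
    · right
      have h2 : (ρ (g₀ ^ m * g)).det ^ k = 1 := by
        rw [← Matrix.det_pow, h1, Matrix.det_one]
      have h3 : |(ρ (g₀ ^ m * g)).det| = 1 := by
        have h4 : |(ρ (g₀ ^ m * g)).det| ^ k = 1 := by rw [← abs_pow, h2, abs_one]
        exact (pow_eq_one_iff_of_nonneg (abs_nonneg _) hk.ne').mp h4
      rw [e1, Matrix.det_fin_two] at h3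
      simp at h3
      rw [← abs_pow, ← abs_mul, ← h3]
      congr 1
      ring
  -- two good exponents suffice
  have key : ∀ x y : ℝ, x ≠ y → (a - 1) * (x * d - 1) = b * (x * c) →
      (a - 1) * (y * d - 1) = b * (y * c) → a = 1 ∧ b * c = 0 := by
    intro x y hxy h1 h2
    have h3 : (x - y) * ((a - 1) * d - b * c) = 0 := by linear_combination h1 - h2
    have h4 : (a - 1) * d - b * c = 0 := by
      rcases mul_eq_zero.mp h3 with h | h
      · exact absurd (sub_eq_zero.mp h) hxy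
      · exact h
    have h5 : a - 1 = 0 := by linear_combination x * h4 - h1
    refine ⟨by linarith, ?_⟩
    rw [h5] at h4
    linarith
  have hm0 : 0 < |μ| := abs_pos.mpr hμ0
  have n01 : μ ^ 0 ≠ μ ^ 1 := by
    intro h1
    apply hμ1
    rw [pow_zero, pow_one] at h1
    rw [← h1, abs_one]
  have n12 : μ ^ 1 ≠ μ ^ 2 := by
    intro h1
    have h2 : μ * (μ - 1) = 0 := by linear_combination -h1
    rcases mul_eq_zero.mp h2 with h | h
    · exact hμ0 h
    · apply hμ1
      rw [sub_eq_zero.mp h, abs_one]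
  have n02 : μ ^ 0 ≠ μ ^ 2 := by
    intro h1
    have h2 : |μ| ^ 2 = 1 := by rw [← abs_pow, ← h1, pow_zero, abs_one]
    exact hμ1 ((pow_eq_one_iff_of_nonneg (abs_nonneg _) two_ne_zero).mp h2)
  rcases hE 0 with E0 | B0
  · rcases hE 1 with E1 | B1
    · exact key _ _ n01 E0 E1
    · rcases hE 2 with E2 | B2
      · exact key _ _ n02 E0 E2
      · exfalso
        apply hμ1
        have h1 : |μ| * (|μ| ^ 1 * |a * d - b * c|) = 1 := by rw [← B2]; ring
        rw [B1, mul_one] at h1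
        exact h1
  · rw [pow_zero, one_mul] at B0
    rw [B0] at hE
    rcases hE 1 with E1 | B1
    · rcases hE 2 with E2 | B2
      · exact key _ _ n12 E1 E2
      · exfalso
        apply hμ1
        rw [mul_one] at B2
        exact (pow_eq_one_iff_of_nonneg (abs_nonneg _) two_ne_zero).mp B2
    · exfalso
      apply hμ1
      rw [mul_one, pow_one] at B1
      exact B1

theorem matA_diag {G : Type*} [Group G] (ρ : G →* Matrix (Fin 2) (Fin 2) ℝ)
    (h : ∀ g, (ρ g - 1).det = 0 ∨ ∃ k : ℕ, 0 < k ∧ (ρ g) ^ k = 1)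
    (g₀ : G) (μ : ℝ) (hμ0 : μ ≠ 0) (hμ1 : |μ| ≠ 1) (hg₀ : ρ g₀ = !![1, 0; 0, μ]) :
    (∀ g, ρ g 1 0 = 0) ∨ (∀ g, ρ g 0 1 = 0) := by
  by_contra hcon
  push Not at hcon
  obtain ⟨⟨g, hg⟩, ⟨g', hg'⟩⟩ := hcon
  have E := fun x => matA_entry ρ h g₀ μ hμ0 hμ1 hg₀ x
  have h1 := E g
  have h2 := E g'
  have h3 := (E (g * g')).2
  have hb : ρ g 0 1 = 0 := by
    rcases mul_eq_zero.mp h1.2 with h | h
    · exact h
    · exact absurd h hg
  have hc' : ρ g' 1 0 = 0 := by
    rcases mul_eq_zero.mp h2.2 with h | h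
    · exact absurd h hg'
    · exact h
  rw [map_mul, Matrix.mul_apply, Matrix.mul_apply, Fin.sum_univ_two, Fin.sum_univ_two, h1.1, h2.1,
    hb, hc', zero_mul, mul_zero, add_zero, add_zero, one_mul, mul_one] at h3
  rcases mul_eq_zero.mp h3 with h | h
  · exact hg' h
  · exact hg h

theorem matA {G : Type*} [Group G] (ρ : G →* Matrix (Fin 2) (Fin 2) ℝ)
    (h : ∀ g, (ρ g - 1).det = 0 ∨ ∃ k : ℕ, 0 < k ∧ (ρ g) ^ k = 1)
    (g₀ : G) (hg₀ : |(ρ g₀).det| ≠ 1) :
    ∃ p : Fin 2 → ℝ, p ≠ 0 ∧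
      ∀ g, (ρ g).mulVec p 0 * p 1 - (ρ g).mulVec p 1 * p 0 = 0 := by
  set μ := (ρ g₀).det with hμ
  have hμ0 : μ ≠ 0 := by
    intro h0
    have h1 : (ρ g₀).det * (ρ g₀⁻¹).det = 1 := by
      rw [← Matrix.det_mul, ← map_mul, mul_inv_cancel, map_one, Matrix.det_one]
    rw [← hμ, h0, zero_mul] at h1
    exact zero_ne_one h1
  have hμne : μ ≠ 1 := by
    intro h1
    apply hg₀
    rw [h1, abs_one]
  have hd1 : (ρ g₀ - 1).det = 0 := by
    rcases h g₀ with h1 | ⟨k, hk, h1⟩
    · exact h1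
    · exfalso
      have h2 : μ ^ k = 1 := by rw [hμ, ← Matrix.det_pow, h1, Matrix.det_one]
      have h4 : |μ| ^ k = 1 := by rw [← abs_pow, h2, abs_one]
      exact hg₀ ((pow_eq_one_iff_of_nonneg (abs_nonneg _) hk.ne').mp h4)
  have hd2 : (ρ g₀ - μ • (1 : Matrix (Fin 2) (Fin 2) ℝ)).det = 0 := by
    have h1 : (ρ g₀).det = ρ g₀ 0 0 * ρ g₀ 1 1 - ρ g₀ 0 1 * ρ g₀ 1 0 := Matrix.det_fin_two _
    rw [Matrix.det_fin_two] at hd1 ⊢
    simp at hd1 ⊢
    rw [← hμ] at h1
    have h2 : ρ g₀ 0 0 + ρ g₀ 1 1 = 1 + μ := by linear_combination -hd1 - h1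
    linear_combination (-μ) * h2 - h1
  obtain ⟨u, hu0, hu⟩ := Matrix.exists_mulVec_eq_zero_iff.mpr hd1
  obtain ⟨v, hv0, hv⟩ := Matrix.exists_mulVec_eq_zero_iff.mpr hd2
  rw [Matrix.sub_mulVec, Matrix.one_mulVec, sub_eq_zero] at hu
  rw [Matrix.sub_mulVec, Matrix.smul_mulVec, Matrix.one_mulVec, sub_eq_zero] at hv
  -- the change of basis
  set P : Matrix (Fin 2) (Fin 2) ℝ := !![u 0, v 0; u 1, v 1] with hP
  have hAP : ρ g₀ * P = P * !![1, 0; 0, μ] := by
    have hu' := fun i => congrFun hu i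
    have hv' := fun i => congrFun hv i
    ext i j
    have e1 := hu' i
    have e2 := hv' i
    rw [Matrix.mulVec, dotProduct, Fin.sum_univ_two] at e1 e2
    fin_cases i <;> fin_cases j <;>
      simp [hP, Matrix.mul_apply, Fin.sum_univ_two] at e1 e2 ⊢ <;> linarith
  have hPdet : P.det ≠ 0 := by
    intro h0
    -- a common kernel vector gives two different eigenvalues
    obtain ⟨w, hw0, hw⟩ := Matrix.exists_mulVec_eq_zero_iff.mpr h0
    have e1 : (P * !![1, 0; 0, μ]).mulVec w = 0 := by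
      rw [← hAP, ← Matrix.mulVec_mulVec, hw, Matrix.mulVec_zero]
    have f0 := congrFun hw 0
    have f1 := congrFun hw 1
    have k0 := congrFun e1 0
    have k1 := congrFun e1 1
    simp [hP, Matrix.mulVec, dotProduct, Fin.sum_univ_two, Matrix.mul_apply] at f0 f1 k0 k1
    -- u w0 + v w1 = 0 and u w0 + μ v w1 = 0
    have hw1 : w 1 = 0 := by
      by_contra hne
      apply hv0
      funext i
      fin_cases i
      · have : (μ - 1) * (v 0 * w 1) = 0 := by linear_combination k0 - f0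
        rcases mul_eq_zero.mp this with h | h
        · exact absurd (sub_eq_zero.mp h) hμne
        · rcases mul_eq_zero.mp h with h | h
          · exact h
          · exact absurd h hne
      · have : (μ - 1) * (v 1 * w 1) = 0 := by linear_combination k1 - f1
        rcases mul_eq_zero.mp this with h | h
        · exact absurd (sub_eq_zero.mp h) hμne
        · rcases mul_eq_zero.mp h with h | h
          · exact h
          · exact absurd h hne
    have hw00 : w 0 = 0 := by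
      by_contra hne
      apply hu0
      rw [hw1] at f0 f1
      funext i
      fin_cases i
      · simp at f0
        rcases f0 with h | h
        · exact h
        · exact absurd h hne
      · simp at f1
        rcases f1 with h | h
        · exact h
        · exact absurd h hne
    apply hw0
    funext i
    fin_cases i
    · exact hw00
    · exact hw1
  have hPu : IsUnit P.det := isUnit_iff_ne_zero.mpr hPdet
  have hPi : P⁻¹ * P = 1 := Matrix.nonsing_inv_mul _ hPu
  have hPi' : P * P⁻¹ = 1 := Matrix.mul_nonsing_inv _ hPu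
  let ρ' : G →* Matrix (Fin 2) (Fin 2) ℝ :=
    { toFun := fun g => P⁻¹ * ρ g * P
      map_one' := by rw [map_one, mul_one, hPi]
      map_mul' := fun x y => by
        rw [map_mul]
        calc P⁻¹ * (ρ x * ρ y) * P = P⁻¹ * ρ x * 1 * ρ y * P := by simp only [mul_one, mul_assoc]
          _ = P⁻¹ * ρ x * P * (P⁻¹ * ρ y * P) := by rw [← hPi']; simp only [mul_assoc] }
  have hρ' : ∀ g, ρ' g = P⁻¹ * ρ g * P := fun _ => rfl
  have hback : ∀ g, ρ g * P = P * ρ' g := by
    intro g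
    rw [hρ', ← mul_assoc, ← mul_assoc, hPi', one_mul]
  have h' : ∀ g, (ρ' g - 1).det = 0 ∨ ∃ k : ℕ, 0 < k ∧ (ρ' g) ^ k = 1 := by
    intro g
    rcases h g with h1 | ⟨k, hk, h1⟩
    · left
      have h2 : ρ' g - 1 = P⁻¹ * (ρ g - 1) * P := by
        rw [hρ', mul_sub, sub_mul, mul_one, hPi]
      rw [h2, Matrix.det_mul, Matrix.det_mul, h1]
      ring
    · right
      refine ⟨k, hk, ?_⟩
      rw [← map_pow, hρ', map_pow, h1, mul_one, hPi]
  have hg₀' : ρ' g₀ = !![1, 0; 0, μ] := by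
    rw [hρ', mul_assoc, hAP, ← mul_assoc, hPi, one_mul]
  rcases matA_diag ρ' h' g₀ μ hμ0 hg₀ hg₀' with h1 | h1
  · refine ⟨u, hu0, ?_⟩
    intro g
    have e := hback g
    have e0 := congrFun (congrFun e 0) 0
    have e1 := congrFun (congrFun e 1) 0
    have h2 := h1 g
    simp [hP, Matrix.mul_apply, Fin.sum_univ_two, h2] at e0 e1
    simp only [Matrix.mulVec, dotProduct, Fin.sum_univ_two]
    rw [e0, e1]
    ring
  · refine ⟨v, hv0, ?_⟩
    intro g
    have e := hback g
    have e0 := congrFun (congrFun e 0) 1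
    have e1 := congrFun (congrFun e 1) 1
    have h2 := h1 g
    simp [hP, Matrix.mul_apply, Fin.sum_univ_two, h2] at e0 e1
    simp only [Matrix.mulVec, dotProduct, Fin.sum_univ_two]
    rw [e0, e1]
    ring

end Pool.Agent.H71.AU
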